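import Mathlib

/-!
# The closure of a matrix in two blocks: the inequalities

`Mac A B C m p q r` : on `A × C` the matrix `r` is the minimum of `m` and of the min-plus product of `p`
on `A × B` and `q` on `B × C`.
-/

set_option autoImplicit false

namespace Pool.Agent.H81.AP

variable {W : Type}

/-- `r = min (m, p * q)` on `A × C`, where `*` is the min-plus product over `B` -/
structure Mac (A B C : Finset W) (m p q r : W → W → WithTop ℝ) : Prop where
  le : ∀ a ∈ A, ∀ c ∈ C, r a c ≤ m a c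
  le_add : ∀ a ∈ A, ∀ c ∈ C, ∀ b ∈ B, r a c ≤ p a b + q b c
  attained : ∀ a ∈ A, ∀ c ∈ C, m a c ≤ r a c ∨ ∃ b ∈ B, p a b + q b c ≤ r a c

theorem Mac.elim {A B C : Finset W} {m p q r : W → W → WithTop ℝ} (h : Mac A B C m p q r)
    {a c : W} (ha : a ∈ A) (hc : c ∈ C) (z w : WithTop ℝ) (h0 : z ≤ w + m a c)
    (h1 : ∀ b ∈ B, z ≤ w + (p a b + q b c)) : z ≤ w + r a c := by
  rcases h.attained a ha c hc with h2 | ⟨b, hb, h2⟩
  · exact h0.trans (add_le_add le_rfl h2)
  · exact (h1 b hb).trans (add_le_add le_rfl h2)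

theorem Mac.elim' {A B C : Finset W} {p q r : W → W → WithTop ℝ}
    (h : Mac A B C (fun _ _ => ⊤) p q r)
    {a c : W} (ha : a ∈ A) (hc : c ∈ C) (z w : WithTop ℝ)
    (h1 : ∀ b ∈ B, z ≤ w + (p a b + q b c)) : z ≤ w + r a c :=
  h.elim ha hc z w (by simp) h1

/-- `d` is a metric on `U`, not necessarily symmetric or positive -/
structure Metric (U : Finset W) (d : W → W → WithTop ℝ) : Prop where
  diag : ∀ i ∈ U, d i i = 0
  tri : ∀ i ∈ U, ∀ j ∈ U, ∀ k ∈ U, d i k ≤ d i j + d j k

open Classical in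
/-- a matrix in four blocks -/
noncomputable def blocks {β : Type} (A : Finset W) (f11 f12 f21 f22 : W → W → β) : W → W → β :=
  fun i j => if i ∈ A then (if j ∈ A then f11 i j else f12 i j)
    else (if j ∈ A then f21 i j else f22 i j)

theorem blocks11 {β : Type} {A : Finset W} {f11 f12 f21 f22 : W → W → β} {i j : W} (hi : i ∈ A)
    (hj : j ∈ A) : blocks A f11 f12 f21 f22 i j = f11 i j := by
  unfold blocks
  rw [if_pos hi, if_pos hj]

theorem blocks12 {β : Type} {A : Finset W} {f11 f12 f21 f22 : W → W → β} {i j : W} (hi : i ∈ A)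
    (hj : j ∉ A) : blocks A f11 f12 f21 f22 i j = f12 i j := by
  unfold blocks
  rw [if_pos hi, if_neg hj]

theorem blocks21 {β : Type} {A : Finset W} {f11 f12 f21 f22 : W → W → β} {i j : W} (hi : i ∉ A)
    (hj : j ∈ A) : blocks A f11 f12 f21 f22 i j = f21 i j := by
  unfold blocks
  rw [if_neg hi, if_pos hj]

theorem blocks22 {β : Type} {A : Finset W} {f11 f12 f21 f22 : W → W → β} {i j : W} (hi : i ∉ A)
    (hj : j ∉ A) : blocks A f11 f12 f21 f22 i j = f22 i j := by
  unfold blocks
  rw [if_neg hi, if_neg hj]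

theorem closure_step {A B U : Finset W} (hU : ∀ i ∈ U, i ∈ A ∨ i ∈ B)
    {m n22 p12 p21 m11 n11 n12 n21 r22 : W → W → WithTop ℝ}
    (h22 : Metric B n22) (h22m : ∀ i ∈ B, ∀ j ∈ B, n22 i j ≤ m i j)
    (hp12 : Mac A B B (fun _ _ => ⊤) m n22 p12) (hp21 : Mac B B A (fun _ _ => ⊤) n22 m p21)
    (hm11 : Mac A B A m p12 m m11)
    (h11 : Metric A n11) (h11m : ∀ i ∈ A, ∀ j ∈ A, n11 i j ≤ m11 i j)
    (hn12 : Mac A A B (fun _ _ => ⊤) n11 p12 n12) (hn21 : Mac B A A (fun _ _ => ⊤) p21 n11 n21)
    (hr22 : Mac B A B n22 p21 n12 r22) :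
    Metric U (blocks A n11 n12 n21 r22) ∧
      ∀ i ∈ U, ∀ j ∈ U, blocks A n11 n12 n21 r22 i j ≤ m i j := by
  have key1 : ∀ a ∈ A, ∀ b ∈ A, ∀ j ∈ B, n11 a b ≤ p12 a j + p21 j b := by
    intro a ha b hb j hj
    apply hp21.elim' hj hb
    intro t ht
    rw [add_comm]
    apply hp12.elim' ha hj
    intro s hs
    calc n11 a b ≤ m11 a b := h11m a ha b hb
      _ ≤ p12 a t + m t b := hm11.le_add a ha b hb t ht
      _ ≤ (m a s + n22 s t) + m t b := add_le_add (hp12.le_add a ha t ht s hs) le_rfl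
      _ ≤ (m a s + (n22 s j + n22 j t)) + m t b :=
          add_le_add (add_le_add le_rfl (h22.tri s hs j hj t ht)) le_rfl
      _ = n22 j t + m t b + (m a s + n22 s j) := by abel
  have t112 : ∀ i ∈ A, ∀ j ∈ A, ∀ k ∈ B, n12 i k ≤ n11 i j + n12 j k := by
    intro i hi j hj k hk
    apply hn12.elim' hj hk
    intro b hb
    calc n12 i k ≤ n11 i b + p12 b k := hn12.le_add i hi k hk b hb
      _ ≤ (n11 i j + n11 j b) + p12 b k := add_le_add (h11.tri i hi j hj b hb) le_rfl
      _ = n11 i j + (n11 j b + p12 b k) := by abel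
  have t211 : ∀ i ∈ B, ∀ j ∈ A, ∀ k ∈ A, n21 i k ≤ n21 i j + n11 j k := by
    intro i hi j hj k hk
    rw [add_comm]
    apply hn21.elim' hi hj
    intro b hb
    calc n21 i k ≤ p21 i b + n11 b k := hn21.le_add i hi k hk b hb
      _ ≤ p21 i b + (n11 b j + n11 j k) := add_le_add le_rfl (h11.tri b hb j hj k hk)
      _ = n11 j k + (p21 i b + n11 b j) := by abel
  have t121 : ∀ i ∈ A, ∀ j ∈ B, ∀ k ∈ A, n11 i k ≤ n12 i j + n21 j k := by
    intro i hi j hj k hk
    apply hn21.elim' hj hk
    intro b hb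
    rw [add_comm]
    apply hn12.elim' hi hj
    intro a ha
    calc n11 i k ≤ n11 i a + n11 a k := h11.tri i hi a ha k hk
      _ ≤ n11 i a + (n11 a b + n11 b k) := add_le_add le_rfl (h11.tri a ha b hb k hk)
      _ ≤ n11 i a + ((p12 a j + p21 j b) + n11 b k) :=
          add_le_add le_rfl (add_le_add (key1 a ha b hb j hj) le_rfl)
      _ = p21 j b + n11 b k + (n11 i a + p12 a j) := by abel
  have t212 : ∀ i ∈ B, ∀ j ∈ A, ∀ k ∈ B, r22 i k ≤ n21 i j + n12 j k := by
    intro i hi j hj k hk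
    rw [add_comm]
    apply hn21.elim' hi hj
    intro a ha
    calc r22 i k ≤ p21 i a + n12 a k := hr22.le_add i hi k hk a ha
      _ ≤ p21 i a + (n11 a j + n12 j k) := add_le_add le_rfl (t112 a ha j hj k hk)
      _ = n12 j k + (p21 i a + n11 a j) := by abel
  have t122 : ∀ i ∈ A, ∀ j ∈ B, ∀ k ∈ B, n12 i k ≤ n12 i j + r22 j k := by
    intro i hi j hj k hk
    apply hr22.elim hj hk
    · rw [add_comm]
      apply hn12.elim' hi hj
      intro a ha
      have e : n22 j k + (n11 i a + p12 a j) = (n22 j k + n11 i a) + p12 a j := by abel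
      rw [e]
      apply hp12.elim' ha hj
      intro s hs
      calc n12 i k ≤ n11 i a + p12 a k := hn12.le_add i hi k hk a ha
        _ ≤ n11 i a + (m a s + n22 s k) := add_le_add le_rfl (hp12.le_add a ha k hk s hs)
        _ ≤ n11 i a + (m a s + (n22 s j + n22 j k)) :=
            add_le_add le_rfl (add_le_add le_rfl (h22.tri s hs j hj k hk))
        _ = n22 j k + n11 i a + (m a s + n22 s j) := by abel
    · intro b hb
      rw [add_comm]
      apply hn12.elim' hi hj
      intro a ha
      calc n12 i k ≤ n11 i b + n12 b k := t112 i hi b hb k hk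
        _ ≤ (n11 i a + n11 a b) + n12 b k := add_le_add (h11.tri i hi a ha b hb) le_rfl
        _ ≤ (n11 i a + (p12 a j + p21 j b)) + n12 b k :=
            add_le_add (add_le_add le_rfl (key1 a ha b hb j hj)) le_rfl
        _ = p21 j b + n12 b k + (n11 i a + p12 a j) := by abel
  have key2 : ∀ i ∈ B, ∀ j ∈ B, ∀ a ∈ A, p21 i a ≤ n22 i j + p21 j a := by
    intro i hi j hj a ha
    apply hp21.elim' hj ha
    intro t ht
    calc p21 i a ≤ n22 i t + m t a := hp21.le_add i hi a ha t ht
      _ ≤ (n22 i j + n22 j t) + m t a := add_le_add (h22.tri i hi j hj t ht) le_rfl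
      _ = n22 i j + (n22 j t + m t a) := by abel
  have t221 : ∀ i ∈ B, ∀ j ∈ B, ∀ k ∈ A, n21 i k ≤ r22 i j + n21 j k := by
    intro i hi j hj k hk
    rw [add_comm]
    apply hr22.elim hi hj
    · rw [add_comm]
      apply hn21.elim' hj hk
      intro b hb
      calc n21 i k ≤ p21 i b + n11 b k := hn21.le_add i hi k hk b hb
        _ ≤ (n22 i j + p21 j b) + n11 b k := add_le_add (key2 i hi j hj b hb) le_rfl
        _ = n22 i j + (p21 j b + n11 b k) := by abel
    · intro b hb
      calc n21 i k ≤ p21 i b + n11 b k := hn21.le_add i hi k hk b hb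
        _ ≤ p21 i b + (n12 b j + n21 j k) := add_le_add le_rfl (t121 b hb j hj k hk)
        _ = n21 j k + (p21 i b + n12 b j) := by abel
  have t222 : ∀ i ∈ B, ∀ j ∈ B, ∀ k ∈ B, r22 i k ≤ r22 i j + r22 j k := by
    intro i hi j hj k hk
    rw [add_comm]
    apply hr22.elim hi hj
    · rw [add_comm]
      apply hr22.elim hj hk
      · exact (hr22.le i hi k hk).trans (h22.tri i hi j hj k hk)
      · intro a ha
        calc r22 i k ≤ p21 i a + n12 a k := hr22.le_add i hi k hk a ha
          _ ≤ (n22 i j + p21 j a) + n12 a k := add_le_add (key2 i hi j hj a ha) le_rfl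
          _ = n22 i j + (p21 j a + n12 a k) := by abel
    · intro a ha
      calc r22 i k ≤ p21 i a + n12 a k := hr22.le_add i hi k hk a ha
        _ ≤ p21 i a + (n12 a j + r22 j k) := add_le_add le_rfl (t122 a ha j hj k hk)
        _ = r22 j k + (p21 i a + n12 a j) := by abel
  have hmem : ∀ i ∈ U, i ∉ A → i ∈ B := fun i hi hiA => (hU i hi).resolve_left hiA
  refine ⟨⟨?_, ?_⟩, ?_⟩
  · intro i hi
    by_cases hiA : i ∈ A
    · rw [blocks11 hiA hiA]
      exact h11.diag i hiA
    · have hiB := hmem i hi hiA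
      rw [blocks22 hiA hiA]
      apply le_antisymm
      · exact (hr22.le i hiB i hiB).trans (h22.diag i hiB).le
      · rw [← zero_add (r22 i i)]
        apply hr22.elim hiB hiB
        · rw [zero_add, h22.diag i hiB]
        · intro a ha
          rw [zero_add]
          apply hn12.elim' ha hiB
          intro b hb
          calc (0 : WithTop ℝ) = n11 a a := (h11.diag a ha).symm
            _ ≤ n11 a b + n11 b a := h11.tri a ha b hb a ha
            _ ≤ n11 a b + (p12 b i + p21 i a) := add_le_add le_rfl (key1 b hb a ha i hiB)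
            _ = p21 i a + (n11 a b + p12 b i) := by abel
  · intro i hi j hj k hk
    by_cases hiA : i ∈ A <;> by_cases hjA : j ∈ A <;> by_cases hkA : k ∈ A
    · rw [blocks11 hiA hkA, blocks11 hiA hjA, blocks11 hjA hkA]
      exact h11.tri i hiA j hjA k hkA
    · rw [blocks12 hiA hkA, blocks11 hiA hjA, blocks12 hjA hkA]
      exact t112 i hiA j hjA k (hmem k hk hkA)
    · rw [blocks11 hiA hkA, blocks12 hiA hjA, blocks21 hjA hkA]
      exact t121 i hiA j (hmem j hj hjA) k hkA
    · rw [blocks12 hiA hkA, blocks12 hiA hjA, blocks22 hjA hkA]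
      exact t122 i hiA j (hmem j hj hjA) k (hmem k hk hkA)
    · rw [blocks21 hiA hkA, blocks21 hiA hjA, blocks11 hjA hkA]
      exact t211 i (hmem i hi hiA) j hjA k hkA
    · rw [blocks22 hiA hkA, blocks21 hiA hjA, blocks12 hjA hkA]
      exact t212 i (hmem i hi hiA) j hjA k (hmem k hk hkA)
    · rw [blocks21 hiA hkA, blocks22 hiA hjA, blocks21 hjA hkA]
      exact t221 i (hmem i hi hiA) j (hmem j hj hjA) k hkA
    · rw [blocks22 hiA hkA, blocks22 hiA hjA, blocks22 hjA hkA]
      exact t222 i (hmem i hi hiA) j (hmem j hj hjA) k (hmem k hk hkA)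
  · intro i hi j hj
    by_cases hiA : i ∈ A <;> by_cases hjA : j ∈ A
    · rw [blocks11 hiA hjA]
      exact (h11m i hiA j hjA).trans (hm11.le i hiA j hjA)
    · have hjB := hmem j hj hjA
      rw [blocks12 hiA hjA]
      calc n12 i j ≤ n11 i i + p12 i j := hn12.le_add i hiA j hjB i hiA
        _ = p12 i j := by rw [h11.diag i hiA, zero_add]
        _ ≤ m i j + n22 j j := hp12.le_add i hiA j hjB j hjB
        _ = m i j := by rw [h22.diag j hjB, add_zero]
    · have hiB := hmem i hi hiA
      rw [blocks21 hiA hjA]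
      calc n21 i j ≤ p21 i j + n11 j j := hn21.le_add i hiB j hjA j hjA
        _ = p21 i j := by rw [h11.diag j hjA, add_zero]
        _ ≤ n22 i i + m i j := hp21.le_add i hiB j hjA i hiB
        _ = m i j := by rw [h22.diag i hiB, zero_add]
    · have hiB := hmem i hi hiA
      have hjB := hmem j hj hjA
      rw [blocks22 hiA hjA]
      exact (hr22.le i hiB j hjB).trans (h22m i hiB j hjB)

end Pool.Agent.H81.AP
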