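import Pool.Agent.H81.AP.Engine

/-!
# Certificates
-/

set_option autoImplicit false

open Finset Set

namespace Pool.Agent.H81.AP

open Pool.Agent.H81

variable {n : ℕ}

/-- computation with certificates for the weights `x` -/
def certModel (Al : (Fin n → Fin n → ℤ) → Prop) (x : Fin n → Fin n → ℝ) : Model n Al where
  Can {α} d P := ∃ (L : Finset (Fin n → Fin n → ℤ)) (a : α), L.card ≤ d ∧ (∀ c ∈ L, Al c) ∧
    ∀ y, Agree L x y → P y a
  pure a _ hP := ⟨∅, a, le_rfl, fun _ hc => absurd hc (Finset.notMem_empty _), fun y _ => hP y⟩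
  bind := by
    classical
    rintro α β d d' P Q ⟨L, a, hL, hAl, hP⟩ h
    obtain ⟨L', b, hL', hAl', hQ⟩ := h a
    refine ⟨L ∪ L', b, (Finset.card_union_le _ _).trans (by omega), ?_, ?_⟩
    · intro c hc
      rcases Finset.mem_union.1 hc with hc | hc
      · exact hAl c hc
      · exact hAl' c hc
    intro y hy
    exact hQ y (fun c hc => hy c (Finset.mem_union_right _ hc))
      (hP y fun c hc => hy c (Finset.mem_union_left _ hc))
  mono := by
    rintro α d d' P h ⟨L, a, hL, hP⟩
    exact ⟨L, a, hL.trans h, hP⟩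
  test a ha := ⟨{a}, SignType.sign (value a x), by simp, fun c hc => by
    rw [Finset.mem_singleton] at hc
    rw [hc]
    exact ha, fun y hy => (hy a (Finset.mem_singleton_self a)).symm⟩

theorem cert_mac (hn : 0 < n) (x : Fin n → Fin n → ℝ) (G : Fin n → Fin n → Prop) (k : ℕ)
    (A B C : Finset (Fin n)) (M' P' Q' : WMat G)
    (hA : A.card ≤ 2 ^ k) (hB : B.card ≤ 2 ^ k) (hC : C.card ≤ 2 ^ k) :
    (certModel (PairTest G) x).Can (114 * 4 ^ k) (MacPost A B C M' P' Q') := by
  classical
  apply Model.mac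
  obtain ⟨M, hM⟩ := id (⟨M'.1, rfl⟩ : ∃ M, M'.1 = M)
  obtain ⟨P, hP⟩ := id (⟨P'.1, rfl⟩ : ∃ P, P'.1 = P)
  obtain ⟨Q, hQ⟩ := id (⟨Q'.1, rfl⟩ : ∃ Q, Q'.1 = Q)
  rw [hM, hP, hQ]
  obtain ⟨T, -, hTc, hT⟩ := compress_F A B C M P Q x Finset.univ
  obtain ⟨K, hK, hKT, hKy⟩ :=
    TS.neighbours (fun (j : Idx A B C) x => value (F A B C M P Q j) x) x (insert none T)
  refine ⟨K.image fun q => fun i j => F A B C M P Q q.1 i j - F A B C M P Q q.2 i j,
    fun j => SignType.sign (value (F A B C M P Q j) x), ?_, ?_, ?_⟩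
  · refine Finset.card_image_le.trans ?_
    rw [if_neg (Finset.insert_ne_empty _ _)] at hK
    have h1 := Finset.card_insert_le (none : Idx A B C) T
    have h2 := num_le hA hB hC
    have h3 : 1 ≤ 4 ^ k := Nat.one_le_iff_ne_zero.2 (by positivity)
    omega
  · intro c hc
    obtain ⟨q, -, rfl⟩ := Finset.mem_image.1 hc
    rw [← hM, ← hP, ← hQ]
    exact F_pairTest A B C M' P' Q' q.1 q.2 hn
  · intro y hy j
    have h1 : y ∈ TS.Know (fun (j : Idx A B C) x => value (F A B C M P Q j) x)
        (insert none T) x := by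
      apply hKy
      intro q hq
      have := hy _ (Finset.mem_image_of_mem _ hq)
      rw [value_sub, value_sub] at this
      exact this
    exact (hT j (Finset.mem_univ _) y h1).symm

theorem T_cert_le (k : ℕ) : T (fun k => 114 * 4 ^ k) k ≤ 342 * 4 ^ k := by
  induction k with
  | zero => simp [T]
  | succ k ih =>
    simp only [T]
    rw [pow_succ]
    omega

theorem pow_clog_le (hn : 1 ≤ n) : 4 ^ Nat.clog 2 n ≤ 4 * n ^ 2 := by
  rcases Nat.lt_or_ge n 2 with h | h
  · have : n = 1 := by omega
    subst this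
    simp
  · have hk1 : 2 ^ (Nat.clog 2 n - 1) < n := Nat.pow_pred_clog_lt_self (by norm_num) (by omega)
    have hkpos : 1 ≤ Nat.clog 2 n := Nat.clog_pos (by norm_num) h
    obtain ⟨j, hj⟩ : ∃ j, Nat.clog 2 n = j + 1 := ⟨Nat.clog 2 n - 1, by omega⟩
    rw [hj] at hk1 ⊢
    simp only [Nat.add_sub_cancel] at hk1
    have e : 4 ^ j = (2 ^ j) ^ 2 := by
      rw [← pow_mul, mul_comm, pow_mul]
      norm_num
    have := Nat.pow_le_pow_left hk1.le 2
    rw [pow_succ, e]
    omega

/-- small certificates -/
theorem apsp_cert (hn : 1 ≤ n) (G : Fin n → Fin n → Prop) (x : Fin n → Fin n → ℝ) :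
    ∃ (L : Finset (Fin n → Fin n → ℤ)) (o : Option (Mat n)), L.card ≤ 1368 * n ^ 2 ∧
      (∀ a ∈ L, PairTest G a) ∧ ∀ y, Agree L x y → Answer G y o := by
  obtain ⟨L, o, hL, hs, ho⟩ := (certModel (PairTest G) x).apsp G (fun _ _ _ h => cnt_pairTest h) _
    (cert_mac (by omega) x G) (Nat.clog 2 n) (Nat.le_pow_clog (by norm_num) n)
  refine ⟨L, o, ?_, hs, ho⟩
  have h1 := T_cert_le (Nat.clog 2 n)
  have h2 := pow_clog_le hn
  omega

section lower

variable {m : ℕ}

/-- the arcs which do not start at `0` -/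
def arc (e : Fin m × Fin m) : Fin (m + 1) × Fin (m + 1) := (e.1.succ, e.1.succ.succAbove e.2)

theorem arc_injective : Function.Injective (arc (m := m)) := by
  rintro ⟨i, j⟩ ⟨i', j'⟩ h
  simp only [arc, Prod.mk.injEq] at h
  obtain ⟨h1, h2⟩ := h
  have h3 := Fin.succ_injective _ h1
  subst h3
  rw [Fin.succAbove_right_inj] at h2
  rw [h2]

/-- weights on the arcs which do not start at `0` -/
noncomputable def dir (κ : Fin m × Fin m → ℝ) : Fin (m + 1) → Fin (m + 1) → ℝ :=
  fun p q => ∑ e, if arc e = (p, q) then κ e else 0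

theorem dir_arc (κ : Fin m × Fin m → ℝ) (e : Fin m × Fin m) :
    dir κ (arc e).1 (arc e).2 = κ e := by
  unfold dir
  rw [Finset.sum_eq_single e]
  · rw [if_pos rfl]
  · intro e' _ he
    rw [if_neg]
    exact fun h => he (arc_injective h)
  · intro h
    exact absurd (Finset.mem_univ _) h

theorem dir_zero (κ : Fin m × Fin m → ℝ) (q : Fin (m + 1)) : dir κ 0 q = 0 := by
  unfold dir
  apply Finset.sum_eq_zero
  intro e _
  rw [if_neg]
  intro h
  exact Fin.succ_ne_zero e.1 (congrArg Prod.fst h)

theorem dir_value (κ : Fin m × Fin m → ℝ) (a : Fin (m + 1) → Fin (m + 1) → ℤ) :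
    value a (dir κ) = ∑ e, κ e * (a (arc e).1 (arc e).2 : ℝ) := by
  unfold value dir
  simp only [Finset.mul_sum]
  rw [Finset.sum_congr rfl fun p _ => Finset.sum_comm, Finset.sum_comm]
  apply Finset.sum_congr rfl
  intro e _
  rw [Finset.sum_eq_single (arc e).1]
  · rw [Finset.sum_eq_single (arc e).2]
    · rw [if_pos rfl, mul_comm]
    · intro q _ hq
      rw [if_neg, mul_zero]
      exact fun h => hq (congrArg Prod.snd h).symm
    · intro h
      exact absurd (Finset.mem_univ _) h
  · intro p _ hp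
    apply Finset.sum_eq_zero
    intro q _
    rw [if_neg, mul_zero]
    exact fun h => hp (congrArg Prod.fst h).symm
  · intro h
    exact absurd (Finset.mem_univ _) h

theorem exists_dir (L : Finset (Fin (m + 1) → Fin (m + 1) → ℤ)) (hL : L.card < m ^ 2) :
    ∃ κ : Fin m × Fin m → ℝ, κ ≠ 0 ∧ ∀ a ∈ L, value a (dir κ) = 0 := by
  classical
  let Φ : (Fin m × Fin m → ℝ) →ₗ[ℝ] (L → ℝ) :=
    { toFun := fun κ a => ∑ e, κ e * (a.1 (arc e).1 (arc e).2 : ℝ)
      map_add' := by
        intro κ κ'
        funext a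
        simp only [Pi.add_apply, add_mul, Finset.sum_add_distrib]
      map_smul' := by
        intro r κ
        funext a
        simp only [Pi.smul_apply, smul_eq_mul, RingHom.id_apply, Finset.mul_sum, mul_assoc] }
  have hker : LinearMap.ker Φ ≠ ⊥ := by
    apply LinearMap.ker_ne_bot_of_finrank_lt
    rw [Module.finrank_fintype_fun_eq_card, Module.finrank_fintype_fun_eq_card, Fintype.card_coe,
      Fintype.card_prod, Fintype.card_fin, ← sq]
    exact hL
  obtain ⟨κ, hκ, hκ0⟩ := Submodule.exists_mem_ne_zero_of_ne_bot hker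
  refine ⟨κ, hκ0, ?_⟩
  intro a ha
  rw [dir_value]
  exact congrFun (LinearMap.mem_ker.1 hκ) ⟨a, ha⟩

theorem value_line (a : Fin n → Fin n → ℤ) (d : Fin n → Fin n → ℝ) (t : ℝ) :
    value a (fun p q => 1 + t * d p q) = value a (fun _ _ => 1) + t * value a d := by
  unfold value
  simp only [mul_add, Finset.sum_add_distrib, mul_one, Finset.mul_sum]
  congr 1
  apply Finset.sum_congr rfl
  intro p _
  apply Finset.sum_congr rfl
  intro q _
  ring

theorem len_one (l : List (Fin n × Fin n)) : len (fun _ _ => (1 : ℝ)) l = l.length := by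
  unfold len
  induction l with
  | nil => simp
  | cons e l ih =>
    rw [List.map_cons, List.sum_cons, ih, List.length_cons]
    push_cast
    ring

theorem slope_zero {s : ℝ} (c : ℝ) (h : ∀ t : ℝ, 0 ≤ c + t * s) : s = 0 := by
  by_contra hs
  have h1 := h (-(c + 1) / s)
  rw [div_mul_cancel₀ _ hs] at h1
  linarith

/-- no small certificates for the complete digraph with all weights `1` -/
theorem lower (L : Finset (Fin (m + 1) → Fin (m + 1) → ℤ)) (o : Option (Mat (m + 1)))
    (h : ∀ y, Agree L (fun _ _ => 1) y → Answer (fun i j => i ≠ j) y o) : m ^ 2 ≤ L.card := by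
  by_contra hcon
  rw [not_le] at hcon
  obtain ⟨κ, hκ, hval⟩ := exists_dir L hcon
  have hagree : ∀ t : ℝ, Agree L (fun _ _ => 1) (fun p q => 1 + t * dir κ p q) := by
    intro t a ha
    rw [value_line, hval a ha, mul_zero, add_zero]
  cases o with
  | none =>
    obtain ⟨i, l, -, hl⟩ := h _ fun a _ => rfl
    rw [len_one] at hl
    have : (0 : ℝ) ≤ l.length := Nat.cast_nonneg _
    linarith
  | some R =>
    have h1 := h _ fun a _ => rfl
    have hR : ∀ i j, i ≠ j → R i j = some [(i, j)] := by
      intro i j hij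
      have hw : IsWalk (fun i j : Fin (m + 1) => i ≠ j) i j [(i, j)] := ⟨rfl, hij, rfl⟩
      cases hl : R i j with
      | none => exact absurd hw ((h1 i j).2 hl _)
      | some l =>
        obtain ⟨h2, h3⟩ := (h1 i j).1 l hl
        have h4 := h3 _ hw
        rw [len_one, len_one] at h4
        simp only [List.length_cons, List.length_nil] at h4
        have h5 : l.length ≤ 1 := by exact_mod_cast h4
        match l, h2, h5 with
        | [], h2, _ => exact absurd h2 hij
        | [e], h2, _ =>
          obtain ⟨h6, -, h7⟩ := h2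
          have h8 : e.2 = j := h7
          rw [← h6, ← h8]
    have hRi : ∀ i, R i i = some [] := by
      intro i
      have hw : IsWalk (fun i j : Fin (m + 1) => i ≠ j) i i [] := rfl
      cases hl : R i i with
      | none => exact absurd hw ((h1 i i).2 hl _)
      | some l =>
        obtain ⟨h2, h3⟩ := (h1 i i).1 l hl
        have h4 := h3 _ hw
        rw [len_one, len_one] at h4
        simp only [List.length_nil] at h4
        have h5 : l.length ≤ 0 := by exact_mod_cast h4
        rw [List.eq_nil_of_length_eq_zero (Nat.le_zero.1 h5)]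
    have hd1 : ∀ i, i ≠ 0 → dir κ i 0 = 0 := by
      intro i hi
      apply slope_zero 2
      intro t
      have h2 := ((h _ (hagree t)) i i).1 [] (hRi i)
      have h3 := h2.2 [(i, 0), (0, i)] ⟨rfl, hi, rfl, hi.symm, rfl⟩
      simp only [len, List.map_nil, List.sum_nil, List.map_cons, List.sum_cons, dir_zero] at h3
      linarith
    have hd2 : ∀ i j, i ≠ j → dir κ i j = 0 := by
      intro i j hij
      by_cases hi : i = 0
      · rw [hi, dir_zero]
      · by_cases hj : j = 0
        · rw [hj, hd1 i hi]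
        · have h5 : -dir κ i j = 0 := by
            apply slope_zero 1
            intro t
            have h2 := ((h _ (hagree t)) i j).1 _ (hR i j hij)
            have h3 := h2.2 [(i, 0), (0, j)] ⟨rfl, hi, rfl, Ne.symm hj, rfl⟩
            simp only [len, List.map_nil, List.sum_nil, List.map_cons, List.sum_cons, dir_zero,
              hd1 i hi] at h3
            linarith
          linarith
    apply hκ
    funext e
    rw [← dir_arc κ e]
    apply hd2
    exact (Fin.succAbove_ne _ _).symm

end lower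

end Pool.Agent.H81.AP
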