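import Pool.Agent.H81.AP.Model

/-!
# The recursion for all pairs shortest paths
-/

set_option autoImplicit false

namespace Pool.Agent.H81.AP

variable {n : ℕ}

/-- what the closure on `U` has to satisfy -/
def Clos {G : Fin n → Fin n → Prop} (U : Finset (Fin n)) (M : WMat G) (x : Fin n → Fin n → ℝ) :
    Option (WMat G) → Prop
  | none => ∃ i l, IsWalk G i i l ∧ len x l < 0
  | some N => Metric U (fun i j => val x (N.1 i j)) ∧
      ∀ i ∈ U, ∀ j ∈ U, val x (N.1 i j) ≤ val x (M.1 i j)

/-- the costs -/
def T (c : ℕ → ℕ) : ℕ → ℕ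
  | 0 => 1
  | k + 1 => 2 * T c k + 6 * c k

theorem val_blocks (x : Fin n → Fin n → ℝ) (A : Finset (Fin n)) (f11 f12 f21 f22 : Mat n)
    (i j : Fin n) : val x (blocks A f11 f12 f21 f22 i j) =
      blocks A (fun i j => val x (f11 i j)) (fun i j => val x (f12 i j))
        (fun i j => val x (f21 i j)) (fun i j => val x (f22 i j)) i j := by
  unfold blocks
  split_ifs <;> rfl

theorem walks_blocks {G : Fin n → Fin n → Prop} {A : Finset (Fin n)} {f11 f12 f21 f22 : Mat n}
    (h11 : Walks G f11) (h12 : Walks G f12) (h21 : Walks G f21) (h22 : Walks G f22) :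
    Walks G (blocks A f11 f12 f21 f22) := by
  intro i j l hl
  unfold blocks at hl
  split_ifs at hl
  · exact h11 i j l hl
  · exact h12 i j l hl
  · exact h21 i j l hl
  · exact h22 i j l hl

theorem walks_none (G : Fin n → Fin n → Prop) : Walks G (fun _ _ => none) := by
  intro i j l hl
  cases hl

/-- the empty matrix -/
def wnone (G : Fin n → Fin n → Prop) : WMat G := ⟨fun _ _ => none, walks_none G⟩

theorem walks_diag (G : Fin n → Fin n → Prop) :
    Walks G (fun i j => if i = j then some [] else none) := by
  intro i j l hl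
  simp only at hl
  split_ifs at hl with h
  rw [Option.some.injEq] at hl
  rw [← hl]
  exact h

/-- the empty walks on the diagonal -/
def wdiag (G : Fin n → Fin n → Prop) : WMat G :=
  ⟨fun i j => if i = j then some [] else none, walks_diag G⟩

/-- four blocks of walks -/
noncomputable def wblocks {G : Fin n → Fin n → Prop} (A : Finset (Fin n))
    (f11 f12 f21 f22 : WMat G) : WMat G :=
  ⟨blocks A f11.1 f12.1 f21.1 f22.1, walks_blocks f11.2 f12.2 f21.2 f22.2⟩

variable {Al : (Fin n → Fin n → ℤ) → Prop}

theorem Model.close (m : Model n Al) (G : Fin n → Fin n → Prop)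
    (hAl : ∀ i j l, IsWalk G i j l → Al (cnt l)) (c : ℕ → ℕ)
    (hmac : ∀ (k : ℕ) (A B C : Finset (Fin n)) (M P Q : WMat G), A.card ≤ 2 ^ k →
      B.card ≤ 2 ^ k → C.card ≤ 2 ^ k → m.Can (c k) (MacPost A B C M P Q)) :
    ∀ (k : ℕ) (U : Finset (Fin n)) (M : WMat G), U.card ≤ 2 ^ k →
      m.Can (T c k) (Clos U M) := by
  classical
  intro k
  induction k with
  | zero =>
    intro U M hU
    rw [pow_zero] at hU
    rcases U.eq_empty_or_nonempty with rfl | ⟨u, hu⟩
    · refine m.mono (Nat.zero_le _) (m.pure (some M) ?_)
      intro x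
      refine ⟨⟨?_, ?_⟩, ?_⟩
      · intro i hi
        exact absurd hi (Finset.notMem_empty i)
      · intro i hi
        exact absurd hi (Finset.notMem_empty i)
      · intro i hi
        exact absurd hi (Finset.notMem_empty i)
    · have hUu : ∀ i ∈ U, i = u := fun i hi => Finset.card_le_one.1 hU i hi u hu
      have hfin : ∀ x : Fin n → Fin n → ℝ, (0 : WithTop ℝ) ≤ val x (M.1 u u) →
          Clos U M x (some (wdiag G)) := by
        intro x hx
        refine ⟨⟨?_, ?_⟩, ?_⟩
        · intro i _
          simp [val, len, wdiag]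
        · intro i hi j hj k hk
          rw [hUu i hi, hUu j hj, hUu k hk]
          simp [val, len, wdiag]
        · intro i hi j hj
          rw [hUu i hi, hUu j hj]
          simpa [val, len, wdiag] using hx
      cases hMu : M.1 u u with
      | none =>
        refine m.mono (Nat.zero_le _) (m.pure (some (wdiag G)) ?_)
        intro x
        apply hfin
        rw [hMu]
        simp [val]
      | some l =>
        refine m.map (m.test (cnt l) (hAl u u l (M.2 u u l hMu)))
          (fun s => if s = -1 then none else some (wdiag G)) ?_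
        intro x s hs
        rw [value_cnt] at hs
        by_cases h : s = -1
        · rw [if_pos h]
          rw [h] at hs
          exact ⟨u, l, M.2 u u l hMu, sign_eq_neg_one_iff.1 hs.symm⟩
        · rw [if_neg h]
          apply hfin
          rw [hMu]
          have h1 : 0 ≤ len x l := by
            by_contra hcon
            rw [not_le] at hcon
            exact h (by rw [hs, sign_neg hcon])
          simpa [val] using h1
  | succ k ih =>
    intro U M hU
    obtain ⟨A, hAU, hA⟩ := Finset.exists_subset_card_eq (min_le_left U.card (2 ^ k))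
    set B := U \ A with hB
    have hAc : A.card ≤ 2 ^ k := by omega
    have hBc : B.card ≤ 2 ^ k := by
      have := Finset.card_sdiff_of_subset hAU
      rw [← hB] at this
      rw [pow_succ] at hU
      omega
    have hUAB : ∀ i ∈ U, i ∈ A ∨ i ∈ B := by
      intro i hi
      by_cases h : i ∈ A
      · exact Or.inl h
      · exact Or.inr (Finset.mem_sdiff.2 ⟨hi, h⟩)
    refine m.mono (show T c k + (c k + (c k + (c k + (T c k + (c k + (c k + (c k + 0))))))) ≤
      T c (k + 1) by simp only [T]; omega) ?_
    refine m.bind (ih B M hBc) ?_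
    rintro (_ | N22)
    · exact m.mono (Nat.zero_le _) (m.pure none fun x h => h)
    refine m.bind (hmac k A B B (wnone G) M N22 hAc hBc hBc) fun P12 => ?_
    refine m.bind (hmac k B B A (wnone G) N22 M hBc hBc hAc) fun P21 => ?_
    refine m.bind (hmac k A B A M P12 M hAc hBc hAc) fun M11 => ?_
    refine m.bind (ih A M11 hAc) ?_
    rintro (_ | N11)
    · exact m.mono (Nat.zero_le _) (m.pure none fun x hN11 _ _ _ _ => hN11)
    refine m.bind (hmac k A A B (wnone G) N11 P12 hAc hAc hBc) fun N12 => ?_
    refine m.bind (hmac k B A A (wnone G) P21 N11 hBc hAc hAc) fun N21 => ?_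
    refine m.bind (hmac k B A B N22 P21 N12 hBc hAc hBc) fun R22 => ?_
    refine m.pure (some (wblocks A N11 N12 N21 R22)) ?_
    intro x hR22 hN21 hN12 hN11 hM11 hP21 hP12 hN22
    obtain ⟨m22, le22⟩ := hN22
    obtain ⟨m11, le11⟩ := hN11
    obtain ⟨s1, s2⟩ := closure_step hUAB m22 le22 hP12 hP21 hM11 m11 le11 hN12 hN21 hR22
    have e : (fun i j => val x ((wblocks A N11 N12 N21 R22).1 i j)) =
        blocks A (fun i j => val x (N11.1 i j)) (fun i j => val x (N12.1 i j))
          (fun i j => val x (N21.1 i j)) (fun i j => val x (R22.1 i j)) := by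
      funext i j
      exact val_blocks x A N11.1 N12.1 N21.1 R22.1 i j
    refine ⟨?_, ?_⟩
    · rw [e]
      exact s1
    · intro i hi j hj
      have := s2 i hi j hj
      rw [← e] at this
      exact this

theorem Model.apsp (m : Model n Al) (G : Fin n → Fin n → Prop)
    (hAl : ∀ i j l, IsWalk G i j l → Al (cnt l)) (c : ℕ → ℕ)
    (hmac : ∀ (k : ℕ) (A B C : Finset (Fin n)) (M P Q : WMat G), A.card ≤ 2 ^ k →
      B.card ≤ 2 ^ k → C.card ≤ 2 ^ k → m.Can (c k) (MacPost A B C M P Q))
    (k : ℕ) (hk : n ≤ 2 ^ k) : m.Can (T c k) (Answer G) := by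
  classical
  have hWw : Walks G (fun i j => if G i j then some [(i, j)] else none) := by
    intro i j l hl
    simp only at hl
    split_ifs at hl with h
    rw [Option.some.injEq] at hl
    rw [← hl]
    exact ⟨rfl, h, rfl⟩
  set W : WMat G := ⟨fun i j => if G i j then some [(i, j)] else none, hWw⟩ with hW
  refine m.map (m.close G hAl c hmac k Finset.univ W (by simpa using hk))
    (fun o => o.map fun N => N.1) ?_
  intro x o ho
  cases o with
  | none => exact ho
  | some N =>
    obtain ⟨hm, hle⟩ := ho
    have key : ∀ (l : List (Fin n × Fin n)) (i j : Fin n), IsWalk G i j l →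
        val x (N.1 i j) ≤ ((len x l : ℝ) : WithTop ℝ) := by
      intro l
      induction l with
      | nil =>
        intro i j h
        have : i = j := h
        subst this
        have := hm.diag i (Finset.mem_univ i)
        rw [this]
        simp [len]
      | cons e l ih =>
        rintro i j ⟨rfl, h1, h2⟩
        have h3 : val x (N.1 e.1 e.2) ≤ ((x e.1 e.2 : ℝ) : WithTop ℝ) := by
          refine (hle _ (Finset.mem_univ _) _ (Finset.mem_univ _)).trans ?_
          have hWe : W.1 e.1 e.2 = some [(e.1, e.2)] := if_pos h1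
          rw [hWe]
          simp [val, len]
        calc val x (N.1 e.1 j) ≤ val x (N.1 e.1 e.2) + val x (N.1 e.2 j) :=
              hm.tri _ (Finset.mem_univ _) _ (Finset.mem_univ _) _ (Finset.mem_univ _)
          _ ≤ ((x e.1 e.2 : ℝ) : WithTop ℝ) + ((len x l : ℝ) : WithTop ℝ) :=
              add_le_add h3 (ih e.2 j h2)
          _ = ((len x (e :: l) : ℝ) : WithTop ℝ) := by
              rw [← WithTop.coe_add]
              congr 1
    show Solves G x N.1
    intro i j
    refine ⟨?_, ?_⟩
    · intro l hl
      refine ⟨N.2 i j l hl, fun l' hl' => ?_⟩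
      have := key l' i j hl'
      rw [hl] at this
      simpa [val] using this
    · intro hN l hl
      have := key l i j hl
      rw [hN] at this
      simp [val] at this

end Pool.Agent.H81.AP
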