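import Mathlib

/-!
# Linear decision trees for all pairs shortest paths: the definitions
-/

set_option autoImplicit false

namespace Pool.Agent.H81.AP

/-- the value of an integer form in the `n * n` weights `x i j` -/
noncomputable def value {n : ℕ} (a : Fin n → Fin n → ℤ) (x : Fin n → Fin n → ℝ) : ℝ :=
  ∑ i, ∑ j, (a i j : ℝ) * x i j

/-- A linear decision tree for the weights of a digraph with the vertices `Fin n`, with answers
in `α`. A node tests the sign of a form with integer coefficients and has three children. -/
inductive Tree (n : ℕ) (α : Type) : Type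
  | leaf (answer : α) : Tree n α
  | node (a : Fin n → Fin n → ℤ) (negative zero positive : Tree n α) : Tree n α

/-- the answer for the weights `x` -/
noncomputable def Tree.run {n : ℕ} {α : Type} (x : Fin n → Fin n → ℝ) : Tree n α → α
  | .leaf r => r
  | .node a neg zer pos =>
      if value a x < 0 then neg.run x else if value a x = 0 then zer.run x else pos.run x

/-- the largest number of tests on a branch -/
def Tree.depth {n : ℕ} {α : Type} : Tree n α → ℕ
  | .leaf _ => 0
  | .node _ neg zer pos => 1 + max neg.depth (max zer.depth pos.depth)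

/-- the forms which are tested at the nodes -/
def Tree.tests {n : ℕ} {α : Type} : Tree n α → Set (Fin n → Fin n → ℤ)
  | .leaf _ => ∅
  | .node a neg zer pos => {a} ∪ neg.tests ∪ zer.tests ∪ pos.tests

/-- `IsWalk G i j l`: `l` is the list of the arcs of a walk from `i` to `j` in the digraph `G` -/
def IsWalk {n : ℕ} (G : Fin n → Fin n → Prop) (i j : Fin n) : List (Fin n × Fin n) → Prop
  | [] => i = j
  | e :: l => e.1 = i ∧ G e.1 e.2 ∧ IsWalk G e.2 j l

/-- the length of a list of arcs -/
noncomputable def len {n : ℕ} (x : Fin n → Fin n → ℝ) (l : List (Fin n × Fin n)) : ℝ :=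
  (l.map fun e => x e.1 e.2).sum

/-- the length of a list of arcs as a form in the weights: `cnt l i j` is the number of times that
the arc from `i` to `j` occurs in `l` -/
def cnt {n : ℕ} (l : List (Fin n × Fin n)) : Fin n → Fin n → ℤ := fun i j => (l.count (i, j) : ℤ)

/-- The sign of the form `a` is the result of a comparison of the total lengths of two pairs of
walks in `G`: there are walks `u`, `v`, `w`, `z` such that `a` is
`length u + length v - (length w + length z)`. -/
def PairTest {n : ℕ} (G : Fin n → Fin n → Prop) (a : Fin n → Fin n → ℤ) : Prop :=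
  ∃ u v w z : List (Fin n × Fin n), (∃ i j, IsWalk G i j u) ∧ (∃ i j, IsWalk G i j v) ∧
    (∃ i j, IsWalk G i j w) ∧ (∃ i j, IsWalk G i j z) ∧
    a = fun i j => cnt u i j + cnt v i j - (cnt w i j + cnt z i j)

/-- A walk or nothing for each pair of vertices. -/
abbrev Mat (n : ℕ) : Type := Fin n → Fin n → Option (List (Fin n × Fin n))

/-- For the weights `x`: `R i j` is a walk from `i` to `j` in `G` of the least length, and
`R i j = none` if there is no walk from `i` to `j`. -/
def Solves {n : ℕ} (G : Fin n → Fin n → Prop) (x : Fin n → Fin n → ℝ) (R : Mat n) : Prop :=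
  ∀ i j, (∀ l, R i j = some l → IsWalk G i j l ∧ ∀ l', IsWalk G i j l' → len x l ≤ len x l') ∧
    (R i j = none → ∀ l, ¬ IsWalk G i j l)

/-- The right answer for the weights `x`: shortest walks for all pairs, or `none` if there is a
closed walk of negative length. -/
def Answer {n : ℕ} (G : Fin n → Fin n → Prop) (x : Fin n → Fin n → ℝ) : Option (Mat n) → Prop
  | some R => Solves G x R
  | none => ∃ i l, IsWalk G i i l ∧ len x l < 0

/-- The weights `y` and `x` give the same signs to the forms in `L`. -/
def Agree {n : ℕ} (L : Finset (Fin n → Fin n → ℤ)) (x y : Fin n → Fin n → ℝ) : Prop :=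
  ∀ a ∈ L, SignType.sign (value a y) = SignType.sign (value a x)

end Pool.Agent.H81.AP
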