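import Pool.Agent.H81.AP.Defs

/-!
# The dimension of a digraph for the comparison of walks
-/

set_option autoImplicit false

namespace Pool.Agent.H81.AP

/-- The real vector space which is spanned by the vectors
`(number of times that e occurs in u) - (number of times that e occurs in v)`, indexed by the pairs `e`,
for all pairs `u`, `v` of walks in `G` with the same ends. -/
def walkSpace {n : ℕ} (G : Fin n → Fin n → Prop) : Submodule ℝ (Fin n × Fin n → ℝ) :=
  Submodule.span ℝ {a | ∃ (i j : Fin n) (u v : List (Fin n × Fin n)),
    IsWalk G i j u ∧ IsWalk G i j v ∧ a = fun e => (u.count e : ℝ) - v.count e}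

/-- The dimension of `walkSpace G`. -/
noncomputable def dim {n : ℕ} (G : Fin n → Fin n → Prop) : ℕ := Module.finrank ℝ (walkSpace G)

end Pool.Agent.H81.AP
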