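import Pool.Agent.H81.AP.Close
import Pool.Agent.H81.TS.Cert

/-!
# Comparisons of the candidates of a product
-/

set_option autoImplicit false

open Finset Set

namespace Pool.Agent.H81.AP

open Pool.Agent.H81

theorem ts_value_single {N : ℕ} (t : Fin N) (y : Fin N → ℝ) :
    TS.value (Pi.single t (1 : ℤ)) y = y t := by
  unfold TS.value
  rw [Finset.sum_eq_single t]
  · simp
  · intro s _ hs
    rw [Pi.single_eq_of_ne hs]
    simp
  · intro h
    exact absurd (Finset.mem_univ _) h

theorem ts_value_add {N : ℕ} (a c : Fin N → ℤ) (y : Fin N → ℝ) :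
    TS.value (fun j => a j + c j) y = TS.value a y + TS.value c y := by
  unfold TS.value
  rw [← Finset.sum_add_distrib]
  apply Finset.sum_congr rfl
  intro j _
  push_cast
  ring

/-- the sum of absolute values -/
def norm1 {N : ℕ} (a : Fin N → ℤ) : ℕ := ∑ j, (a j).natAbs

theorem norm1_single {N : ℕ} (t : Fin N) : norm1 (Pi.single t (1 : ℤ)) = 1 := by
  unfold norm1
  rw [Finset.sum_eq_single t]
  · simp
  · intro s _ hs
    rw [Pi.single_eq_of_ne hs]
    simp
  · intro h
    exact absurd (Finset.mem_univ _) h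

theorem norm1_add {N : ℕ} (a c : Fin N → ℤ) : norm1 (fun j => a j + c j) ≤ norm1 a + norm1 c := by
  unfold norm1
  rw [← Finset.sum_add_distrib]
  exact Finset.sum_le_sum fun j _ => Int.natAbs_add_le _ _

theorem norm1_sub {N : ℕ} (a c : Fin N → ℤ) : norm1 (fun j => a j - c j) ≤ norm1 a + norm1 c := by
  unfold norm1
  rw [← Finset.sum_add_distrib]
  exact Finset.sum_le_sum fun j _ => Int.natAbs_sub_le _ _

/-- transfer of the hypothesis `Compress` along a map of inputs -/
theorem compress_comp {J E E' : Type} [DecidableEq J] {v : J → E → ℝ} {o : J} {D : ℕ}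
    (h : TS.Compress v o D) (φ : E' → E) : TS.Compress (fun j x => v j (φ x)) o D := by
  intro x S
  obtain ⟨T, h1, h2, h3⟩ := h (φ x) S
  exact ⟨T, h1, h2, fun s hs y hy => h3 s hs (φ y) hy⟩

theorem N_comp {J E E' : Type} [Fintype J] (v : J → E → ℝ) (φ : E' → E) :
    TS.N (fun j x => v j (φ x)) Set.univ ≤ TS.N v Set.univ := by
  unfold TS.N
  apply Set.ncard_le_ncard _ (Set.toFinite _)
  rintro _ ⟨x, _, rfl⟩
  exact ⟨φ x, trivial, rfl⟩

variable {n : ℕ}

/-- the entries of the three matrices -/
abbrev Ent (A B C : Finset (Fin n)) : Type := (A × B) ⊕ (B × C) ⊕ (A × C)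

/-- the entry -/
def entry {A B C : Finset (Fin n)} (M P Q : Mat n) : Ent A B C → Option (List (Fin n × Fin n))
  | .inl q => P q.1 q.2
  | .inr (.inl q) => Q q.1 q.2
  | .inr (.inr q) => M q.1 q.2

/-- the number of entries -/
def num (A B C : Finset (Fin n)) : ℕ := Fintype.card (Ent A B C)

/-- numbering of the entries -/
noncomputable def eqv (A B C : Finset (Fin n)) : Ent A B C ≃ Fin (num A B C) :=
  Fintype.equivFin _

/-- the lengths of all entries -/
noncomputable def phi (A B C : Finset (Fin n)) (M P Q : Mat n) (x : Fin n → Fin n → ℝ) :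
    Fin (num A B C) → ℝ := fun t => value (ocnt (entry M P Q ((eqv A B C).symm t))) x

/-- a candidate as a form in the lengths of the entries -/
noncomputable def og {A B C : Finset (Fin n)} (a : A) (c : C) :
    Option B → Fin (num A B C) → ℤ
  | none => Pi.single (eqv A B C (.inr (.inr (a, c)))) 1
  | some b => fun t => (Pi.single (eqv A B C (.inl (a, b))) (1 : ℤ) : Fin (num A B C) → ℤ) t +
      (Pi.single (eqv A B C (.inr (.inl (b, c)))) (1 : ℤ) : Fin (num A B C) → ℤ) t

/-- the forms in the lengths of the entries -/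
noncomputable def gg (A B C : Finset (Fin n)) : Idx A B C → Fin (num A B C) → ℤ
  | none => 0
  | some q => fun t => og q.1 q.2.1 q.2.2.1 t - og q.1 q.2.1 q.2.2.2 t

theorem og_value {A B C : Finset (Fin n)} (M P Q : Mat n) (a : A) (c : C) (o : Option B)
    (x : Fin n → Fin n → ℝ) :
    TS.value (og a c o) (phi A B C M P Q x) = value (oform M P Q a c (o.map (↑))) x := by
  cases o with
  | none =>
    simp only [og, Option.map_none, oform]
    rw [ts_value_single]
    simp only [phi, Equiv.symm_apply_apply, entry]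
  | some b =>
    simp only [og, Option.map_some, oform]
    rw [ts_value_add, ts_value_single, ts_value_single, value_add]
    simp only [phi, Equiv.symm_apply_apply, entry]

theorem gg_value {A B C : Finset (Fin n)} (M P Q : Mat n) (j : Idx A B C)
    (x : Fin n → Fin n → ℝ) :
    TS.V (gg A B C) j (phi A B C M P Q x) = value (F A B C M P Q j) x := by
  cases j with
  | none =>
    unfold TS.V
    simp only [gg, F]
    rw [TS.value_zero]
    unfold value
    simp
  | some q =>
    unfold TS.V
    simp only [gg, F]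
    rw [TS.value_sub, value_sub, og_value M P Q, og_value M P Q]

theorem og_norm {A B C : Finset (Fin n)} (a : A) (c : C) (o : Option B) :
    norm1 (og a c o) ≤ 2 := by
  cases o with
  | none =>
    simp only [og]
    rw [norm1_single]
    norm_num
  | some b =>
    simp only [og]
    refine (norm1_add _ _).trans ?_
    rw [norm1_single, norm1_single]

theorem gg_norm {A B C : Finset (Fin n)} (p q : Idx A B C) :
    ∑ j, (gg A B C p j - gg A B C q j).natAbs ≤ 8 := by
  have h : ∀ p : Idx A B C, norm1 (gg A B C p) ≤ 4 := by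
    intro p
    cases p with
    | none => simp [gg, norm1]
    | some q =>
      simp only [gg]
      refine (norm1_sub _ _).trans ?_
      have h1 := og_norm q.1 q.2.1 q.2.2.1
      have h2 := og_norm q.1 q.2.1 q.2.2.2
      omega
  have := norm1_sub (gg A B C p) (gg A B C q)
  have h1 := h p
  have h2 := h q
  have h3 : ∑ j, (gg A B C p j - gg A B C q j).natAbs =
      norm1 (fun j => gg A B C p j - gg A B C q j) := rfl
  omega

theorem num_le {A B C : Finset (Fin n)} {k : ℕ} (hA : A.card ≤ 2 ^ k) (hB : B.card ≤ 2 ^ k)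
    (hC : C.card ≤ 2 ^ k) : num A B C ≤ 3 * 4 ^ k := by
  unfold num
  rw [Fintype.card_sum, Fintype.card_sum, Fintype.card_prod, Fintype.card_prod, Fintype.card_prod,
    Fintype.card_coe, Fintype.card_coe, Fintype.card_coe]
  have e : 4 ^ k = 2 ^ k * 2 ^ k := by
    rw [← mul_pow]
    norm_num
  rw [e]
  have h1 := Nat.mul_le_mul hA hB
  have h2 := Nat.mul_le_mul hB hC
  have h3 := Nat.mul_le_mul hA hC
  omega

theorem idx_le {A B C : Finset (Fin n)} {k : ℕ} (hA : A.card ≤ 2 ^ k) (hB : B.card ≤ 2 ^ k)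
    (hC : C.card ≤ 2 ^ k) : Fintype.card (Idx A B C) ≤ 2 ^ (4 * k + 3) := by
  rw [Fintype.card_option, Fintype.card_prod, Fintype.card_prod, Fintype.card_prod,
    Fintype.card_option, Fintype.card_coe, Fintype.card_coe, Fintype.card_coe]
  have h0 : 1 ≤ 2 ^ k := Nat.one_le_two_pow
  have h4 : (B.card + 1) * (B.card + 1) ≤ (2 * 2 ^ k) * (2 * 2 ^ k) :=
    Nat.mul_le_mul (by omega) (by omega)
  have h5 : C.card * ((B.card + 1) * (B.card + 1)) ≤ 2 ^ k * ((2 * 2 ^ k) * (2 * 2 ^ k)) :=
    Nat.mul_le_mul hC h4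
  have h6 := Nat.mul_le_mul hA h5
  have e : 2 ^ (4 * k + 3) = 8 * (2 ^ k * (2 ^ k * (2 ^ k * 2 ^ k))) := by
    rw [pow_add, mul_comm 4 k, pow_mul]
    ring
  have e2 : 2 ^ k * (2 ^ k * ((2 * 2 ^ k) * (2 * 2 ^ k))) =
      4 * (2 ^ k * (2 ^ k * (2 ^ k * 2 ^ k))) := by ring
  have h7 : 1 ≤ 2 ^ k * (2 ^ k * (2 ^ k * 2 ^ k)) :=
    Nat.one_le_iff_ne_zero.2 (by positivity)
  rw [e2] at h6
  rw [e]
  omega

theorem compress_F (A B C : Finset (Fin n)) (M P Q : Mat n) :
    TS.Compress (fun j x => value (F A B C M P Q j) x) none (6 * (6 * num A B C + 1)) := by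
  have h := compress_comp (TS.compress_forms (gg A B C) none rfl 8 6 (by norm_num) (by norm_num)
    gg_norm) (phi A B C M P Q)
  have e : (fun (j : Idx A B C) (x : Fin n → Fin n → ℝ) => TS.V (gg A B C) j (phi A B C M P Q x)) =
      fun j x => value (F A B C M P Q j) x := by
    funext j x
    exact gg_value M P Q j x
  rwa [e] at h

theorem N_F (A B C : Finset (Fin n)) (M P Q : Mat n) :
    TS.N (fun j x => value (F A B C M P Q j) x) Set.univ ≤
      (2 * Fintype.card (Idx A B C) ^ 2 + 1) ^ num A B C := by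
  have h := N_comp (TS.V (gg A B C)) (phi A B C M P Q)
  have e : (fun (j : Idx A B C) (x : Fin n → Fin n → ℝ) => TS.V (gg A B C) j (phi A B C M P Q x)) =
      fun j x => value (F A B C M P Q j) x := by
    funext j x
    exact gg_value M P Q j x
  rw [e] at h
  exact h.trans (TS.N_univ_le (gg A B C))

end Pool.Agent.H81.AP
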