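import Pool.Agent.H81.AP.Space
import Pool.Agent.H81.AP.Dim

/-!
# Lower bounds by the dimension, and the dimension of strongly connected digraphs
-/

set_option autoImplicit false

open Finset Set

namespace Pool.Agent.H81.AP

open Pool.Agent.H81 Module

variable {n : ℕ} {G : Fin n → Fin n → Prop}

theorem len_line (x d : Fin n → Fin n → ℝ) (t : ℝ) (l : List (Fin n × Fin n)) :
    len (fun i j => x i j + t * d i j) l = len x l + t * len d l := by
  induction l with
  | nil => simp [len]
  | cons e l ih =>
    simp only [len, List.map_cons, List.sum_cons] at ih ⊢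
    rw [ih]
    ring

theorem value_line' (a : Fin n → Fin n → ℤ) (x d : Fin n → Fin n → ℝ) (t : ℝ) :
    value a (fun p q => x p q + t * d p q) = value a x + t * value a d := by
  unfold value
  simp only [mul_add, Finset.sum_add_distrib, Finset.mul_sum]
  congr 1
  apply Finset.sum_congr rfl
  intro p _
  apply Finset.sum_congr rfl
  intro q _
  ring

theorem exists_dot (φ : Dual ℝ (Fin n × Fin n → ℝ)) :
    ∃ d : Fin n → Fin n → ℝ, ∀ a : Fin n × Fin n → ℝ, φ a = ∑ e, a e * d e.1 e.2 := by
  obtain ⟨v, rfl⟩ := (dotProductEquiv ℝ (Fin n × Fin n)).surjective φ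
  refine ⟨fun i j => v (i, j), fun a => ?_⟩
  simp only [dotProductEquiv_apply_apply, dotProduct]
  exact Finset.sum_congr rfl fun e _ => mul_comm _ _

theorem sum_count (d : Fin n → Fin n → ℝ) (u v : List (Fin n × Fin n)) :
    ∑ e : Fin n × Fin n, ((u.count e : ℝ) - v.count e) * d e.1 e.2 = len d u - len d v := by
  rw [← value_cnt, ← value_cnt, value_eq_sum, value_eq_sum, ← Finset.sum_sub_distrib]
  apply Finset.sum_congr rfl
  intro e _
  simp only [cnt]
  push_cast
  ring

/-- every certificate for weights without negative closed walks has at least `dim G` forms -/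
theorem dim_le_cert (x : Fin n → Fin n → ℝ) (hx : ∀ i l, IsWalk G i i l → 0 ≤ len x l)
    (L : Finset (Fin n → Fin n → ℤ)) (o : Option (Mat n)) (h : ∀ y, Agree L x y → Answer G y o) :
    dim G ≤ L.card := by
  classical
  cases o with
  | none =>
    obtain ⟨i, l, h1, h2⟩ := h x fun _ _ => rfl
    exact absurd (hx i l h1) (not_le.2 h2)
  | some R =>
    let vec : (Fin n → Fin n → ℤ) → (Fin n × Fin n → ℝ) := fun a e => (a e.1 e.2 : ℝ)
    have hle : walkSpace G ≤ Submodule.span ℝ ((L.image vec : Finset _) : Set _) := by
      apply Submodule.span_le.2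
      rintro a ⟨i, j, u, v, hu, hv, rfl⟩
      rw [SetLike.mem_coe, ← Subspace.forall_mem_dualAnnihilator_apply_eq_zero_iff]
      intro φ hφ
      obtain ⟨d, hd⟩ := exists_dot φ
      have hL : ∀ a ∈ L, value a d = 0 := by
        intro a ha
        rw [value_eq_sum, ← hd (vec a)]
        exact (Submodule.mem_dualAnnihilator _).1 hφ _
          (Submodule.subset_span (Finset.mem_coe.2 (Finset.mem_image_of_mem vec ha)))
      have hagree : ∀ t : ℝ, Agree L x (fun p q => x p q + t * d p q) := by
        intro t a ha
        rw [value_line', hL a ha, mul_zero, add_zero]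
      obtain ⟨l, hl⟩ : ∃ l, R i j = some l := by
        cases hR : R i j with
        | none => exact absurd hu ((h x (fun _ _ => rfl) i j).2 hR u)
        | some l => exact ⟨l, rfl⟩
      have key : ∀ w, IsWalk G i j w → len d w - len d l = 0 := by
        intro w hw
        apply slope_zero (len x w - len x l)
        intro t
        have h1 := ((h _ (hagree t) i j).1 l hl).2 w hw
        rw [len_line, len_line] at h1
        linarith
      rw [hd, sum_count]
      linarith [key u hu, key v hv]
    unfold dim
    calc finrank ℝ (walkSpace G)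
        ≤ finrank ℝ (Submodule.span ℝ ((L.image vec : Finset _) : Set (Fin n × Fin n → ℝ))) :=
          Submodule.finrank_mono hle
      _ ≤ (L.image vec).card := finrank_span_finset_le_card _
      _ ≤ L.card := Finset.card_image_le

open Classical in
/-- the forms which are tested on the branch of `x` -/
noncomputable def Tree.path {α : Type} (x : Fin n → Fin n → ℝ) :
    Tree n α → Finset (Fin n → Fin n → ℤ)
  | .leaf _ => ∅
  | .node a neg zer pos => insert a
      (if value a x < 0 then neg.path x else if value a x = 0 then zer.path x else pos.path x)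

theorem Tree.path_card {α : Type} (x : Fin n → Fin n → ℝ) (t : Tree n α) :
    (t.path x).card ≤ t.depth := by
  induction t with
  | leaf r => simp [Tree.path]
  | node a neg zer pos h1 h2 h3 =>
    simp only [Tree.path, Tree.depth]
    refine (Finset.card_insert_le _ _).trans ?_
    split_ifs <;> omega

theorem Tree.path_run {α : Type} (x y : Fin n → Fin n → ℝ) (t : Tree n α)
    (h : Agree (t.path x) x y) : t.run y = t.run x := by
  induction t with
  | leaf r => rfl
  | node a neg zer pos h1 h2 h3 =>
    simp only [Tree.path] at h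
    have ha := h a (Finset.mem_insert_self _ _)
    have hrest : ∀ c ∈ (if value a x < 0 then neg.path x else if value a x = 0 then zer.path x
        else pos.path x), SignType.sign (value c y) = SignType.sign (value c x) :=
      fun c hc => h c (Finset.mem_insert_of_mem hc)
    simp only [Tree.run]
    rcases lt_trichotomy (value a x) 0 with hx | hx | hx
    · rw [sign_neg hx, sign_eq_neg_one_iff] at ha
      rw [if_pos hx, if_pos ha]
      rw [if_pos hx] at hrest
      exact h1 hrest
    · rw [hx, sign_zero, sign_eq_zero_iff] at ha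
      have hx1 : ¬ value a x < 0 := by rw [hx]; exact lt_irrefl _
      have ha1 : ¬ value a y < 0 := by rw [ha]; exact lt_irrefl _
      rw [if_neg hx1, if_pos hx, if_neg ha1, if_pos ha]
      rw [if_neg hx1, if_pos hx] at hrest
      exact h2 hrest
    · rw [sign_pos hx, sign_eq_one_iff] at ha
      rw [if_neg (not_lt.2 hx.le), if_neg hx.ne', if_neg (not_lt.2 ha.le), if_neg ha.ne']
      rw [if_neg (not_lt.2 hx.le), if_neg hx.ne'] at hrest
      exact h3 hrest

/-- every tree has depth at least `dim G` -/
theorem dim_le_depth (t : Tree n (Option (Mat n))) (ht : ∀ x, Answer G x (t.run x)) :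
    dim G ≤ t.depth := by
  refine (dim_le_cert (G := G) (fun _ _ => 0) ?_ (t.path fun _ _ => 0)
    (t.run fun _ _ => 0) ?_).trans (Tree.path_card _ t)
  · intro i l _
    unfold len
    simp
  · intro y hy
    have := Tree.path_run _ y t hy
    rw [← this]
    exact ht y

/-- a difference of potentials -/
theorem len_pot (h : Fin n → ℝ) {i j : Fin n} {l : List (Fin n × Fin n)} (hl : IsWalk G i j l) :
    len (fun p q => h p - h q) l = h i - h j := by
  induction l generalizing i with
  | nil =>
    have h1 : i = j := hl
    rw [h1, len_nil]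
    ring
  | cons e l ih =>
    obtain ⟨h1, h2, h3⟩ := hl
    have h4 := ih h3
    simp only [len, List.map_cons, List.sum_cons] at h4 ⊢
    rw [h4, h1]
    ring

theorem len_congr {x y : Fin n → Fin n → ℝ} {i j : Fin n} {l : List (Fin n × Fin n)}
    (hl : IsWalk G i j l) (hxy : ∀ p q, G p q → x p q = y p q) : len x l = len y l := by
  unfold len
  congr 1
  apply List.map_congr_left
  intro e he
  exact hxy _ _ (hl.arcs e he)

section strong

open Classical in
/-- weights which are arbitrary outside of `G` and differences of potentials on `G` -/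
noncomputable def pot (G : Fin n → Fin n → Prop) :
    (({e : Fin n × Fin n // ¬ G e.1 e.2} → ℝ) × (Fin n → ℝ)) →ₗ[ℝ] (Fin n × Fin n → ℝ) where
  toFun z := fun e => if h : G e.1 e.2 then z.2 e.1 - z.2 e.2 else z.1 ⟨e, h⟩
  map_add' z z' := by
    funext e
    simp only [Prod.snd_add, Prod.fst_add, Pi.add_apply]
    split_ifs
    · ring
    · rfl
  map_smul' r z := by
    funext e
    simp only [Prod.smul_snd, Prod.smul_fst, Pi.smul_apply, smul_eq_mul, RingHom.id_apply]
    split_ifs
    · ring
    · rfl

theorem range_pot (hn : 0 < n) (hG : ∀ i j, ∃ l, IsWalk G i j l) :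
    (LinearMap.range (pot G)).map (dotProductEquiv ℝ (Fin n × Fin n)).toLinearMap =
      (walkSpace G).dualAnnihilator := by
  classical
  ext φ
  rw [Submodule.mem_dualAnnihilator]
  constructor
  · rintro ⟨_, ⟨z, rfl⟩, rfl⟩ a ha
    have key : ∀ a ∈ walkSpace G, ∑ e, a e * pot G z e = 0 := by
      intro a ha
      refine Submodule.span_induction (p := fun a _ => ∑ e, a e * pot G z e = 0) ?_ ?_ ?_ ?_ ha
      · rintro _ ⟨i, j, u, v, hu, hv, rfl⟩
        have h1 := sum_count (fun p q => pot G z (p, q)) u v
        have h2 : ∀ w, IsWalk G i j w → len (fun p q => pot G z (p, q)) w = z.2 i - z.2 j := by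
          intro w hw
          rw [← len_pot z.2 hw]
          apply len_congr hw
          intro p q hpq
          simp only [pot, LinearMap.coe_mk, AddHom.coe_mk]
          rw [dif_pos hpq]
        rw [h2 u hu, h2 v hv, sub_self] at h1
        exact h1
      · simp
      · intro a b _ _ ha hb
        simp only [Pi.add_apply, add_mul, Finset.sum_add_distrib, ha, hb, add_zero]
      · intro r a _ ha
        simp only [Pi.smul_apply, smul_eq_mul, mul_assoc, ← Finset.mul_sum, ha, mul_zero]
    have h2 := key a ha
    simp only [LinearEquiv.coe_coe, dotProductEquiv_apply_apply, dotProduct]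
    rw [← h2]
    exact Finset.sum_congr rfl fun e _ => mul_comm _ _
  · intro hφ
    obtain ⟨d, hd⟩ := exists_dot φ
    have hsame : ∀ i j u v, IsWalk G i j u → IsWalk G i j v → len d u = len d v := by
      intro i j u v hu hv
      have h1 := hφ _ (Submodule.subset_span ⟨i, j, u, v, hu, hv, rfl⟩)
      rw [hd, sum_count] at h1
      linarith
    choose W hW using fun i => hG i ⟨0, hn⟩
    refine ⟨fun e => d e.1 e.2, ⟨(fun e => d e.1.1 e.1.2, fun i => len d (W i)), ?_⟩, ?_⟩
    · funext e
      simp only [pot, LinearMap.coe_mk, AddHom.coe_mk]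
      split_ifs with h
      · have h1 : IsWalk G e.1 ⟨0, hn⟩ (e :: W e.2) := ⟨rfl, h, hW e.2⟩
        have h2 := hsame _ _ _ _ h1 (hW e.1)
        simp only [len, List.map_cons, List.sum_cons] at h2 ⊢
        linarith
      · rfl
    · ext a
      simp only [LinearEquiv.coe_coe, LinearMap.coe_comp, Function.comp_apply,
        dotProductEquiv_apply_apply, dotProduct]
      rw [hd]
      exact Finset.sum_congr rfl fun e _ => mul_comm _ _

theorem ker_pot (hn : 0 < n) (hG : ∀ i j, ∃ l, IsWalk G i j l) :
    finrank ℝ (LinearMap.ker (pot G)) = 1 := by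
  classical
  have h0 : LinearMap.ker (pot G) = Submodule.span ℝ {(0, fun _ => (1 : ℝ))} := by
    ext z
    rw [LinearMap.mem_ker, Submodule.mem_span_singleton]
    constructor
    · intro hz
      have h1 : ∀ e : {e : Fin n × Fin n // ¬ G e.1 e.2}, z.1 e = 0 := by
        intro e
        have := congrFun hz e.1
        simp only [pot, LinearMap.coe_mk, AddHom.coe_mk, Pi.zero_apply] at this
        rwa [dif_neg e.2] at this
      have h2 : ∀ p q, G p q → z.2 p - z.2 q = 0 := by
        intro p q hpq
        have := congrFun hz (p, q)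
        simp only [pot, LinearMap.coe_mk, AddHom.coe_mk, Pi.zero_apply] at this
        rwa [dif_pos hpq] at this
      have h3 : ∀ i, z.2 i = z.2 ⟨0, hn⟩ := by
        intro i
        obtain ⟨l, hl⟩ := hG i ⟨0, hn⟩
        have h4 := len_pot z.2 hl
        have h5 : len (fun p q => z.2 p - z.2 q) l = 0 := by
          have h6 := len_congr (y := fun _ _ => (0 : ℝ)) hl (x := fun p q => z.2 p - z.2 q) h2
          rw [h6]
          unfold len
          simp
        linarith
      refine ⟨z.2 ⟨0, hn⟩, ?_⟩
      apply Prod.ext
      · funext e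
        simp [h1 e]
      · funext i
        simp [h3 i]
    · rintro ⟨r, rfl⟩
      funext e
      simp only [pot, LinearMap.coe_mk, AddHom.coe_mk, Pi.zero_apply]
      split_ifs <;> simp
  rw [h0, finrank_span_singleton]
  intro h1
  have := congrFun (congrArg Prod.snd h1) ⟨0, hn⟩
  simp at this

/-- the dimension of a strongly connected digraph is its cyclomatic number -/
theorem dim_strong (hn : 0 < n) (hG : ∀ i j, ∃ l, IsWalk G i j l) :
    dim G + n = {e : Fin n × Fin n | G e.1 e.2}.ncard + 1 := by
  classical
  have h1 := Subspace.finrank_add_finrank_dualAnnihilator_eq (walkSpace G)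
  rw [← range_pot hn hG] at h1
  have h2 : finrank ℝ ((LinearMap.range (pot G)).map
      (dotProductEquiv ℝ (Fin n × Fin n)).toLinearMap) = finrank ℝ (LinearMap.range (pot G)) :=
    LinearEquiv.finrank_map_eq (dotProductEquiv ℝ (Fin n × Fin n)) _
  rw [h2] at h1
  have h3 := LinearMap.finrank_range_add_finrank_ker (pot G)
  rw [ker_pot hn hG, Module.finrank_prod, Module.finrank_fintype_fun_eq_card,
    Module.finrank_fintype_fun_eq_card, Fintype.card_fin] at h3
  rw [Module.finrank_fintype_fun_eq_card, Fintype.card_prod, Fintype.card_fin] at h1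
  have h4 : Fintype.card {e : Fin n × Fin n // ¬ G e.1 e.2} +
      {e : Fin n × Fin n | G e.1 e.2}.ncard = n * n := by
    rw [Set.ncard_eq_toFinset_card', Set.toFinset_card]
    have := Fintype.card_subtype_compl (fun e : Fin n × Fin n => G e.1 e.2)
    rw [this, Fintype.card_prod, Fintype.card_fin]
    have h5 : Fintype.card {e : Fin n × Fin n // G e.1 e.2} ≤ n * n := by
      have := Fintype.card_subtype_le (fun e : Fin n × Fin n => G e.1 e.2)
      rwa [Fintype.card_prod, Fintype.card_fin] at this
    have h6 : Fintype.card ↑{e : Fin n × Fin n | G e.1 e.2} =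
        Fintype.card {e : Fin n × Fin n // G e.1 e.2} := rfl
    rw [h6]
    omega
  unfold dim
  omega

end strong

end Pool.Agent.H81.AP
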