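import Pool.Agent.H81.AP.Square
import Pool.Agent.H81.AP.Lower

/-!
# The bounds for a digraph by its dimension
-/

set_option autoImplicit false

open Finset Set

namespace Pool.Agent.H81.AP

open Pool.Agent.H81 Module

variable {n : ℕ}

theorem clog_le_log (hn : 2 ≤ n) : (Nat.clog 2 n : ℝ) ≤ Real.logb 2 n + 1 := by
  have hk1 : 2 ^ (Nat.clog 2 n - 1) < n := Nat.pow_pred_clog_lt_self (by norm_num) (by omega)
  have hkpos : 1 ≤ Nat.clog 2 n := Nat.clog_pos (by norm_num) hn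
  obtain ⟨j, hj⟩ : ∃ j, Nat.clog 2 n = j + 1 := ⟨Nat.clog 2 n - 1, by omega⟩
  rw [hj] at hk1 ⊢
  simp only [Nat.add_sub_cancel] at hk1
  have hnR : (2 : ℝ) ≤ n := by exact_mod_cast hn
  have hj1 : ((2 : ℝ) ^ j) ≤ n := by exact_mod_cast hk1.le
  have hL : (j : ℝ) ≤ Real.logb 2 n := by
    rw [Real.le_logb_iff_rpow_le (by norm_num) (by linarith), Real.rpow_natCast]
    exact hj1
  push_cast
  linarith

theorem one_le_log (hn : 2 ≤ n) : 1 ≤ Real.logb 2 n := by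
  have hnR : (2 : ℝ) ≤ n := by exact_mod_cast hn
  rw [Real.le_logb_iff_rpow_le (by norm_num) (by linarith), Real.rpow_one]
  exact hnR

theorem stage_le (k κ : ℕ) (hκ : 1 ≤ κ) (hk : k ≤ κ) :
    8 * (4 * κ + 3) + 8 + 36 * (k + 6 + 1) * (6 * (4 * κ + 3) + 1) ≤ 12448 * κ ^ 2 := by
  have h3 : k + 6 + 1 ≤ 8 * κ := by omega
  have h4 : 6 * (4 * κ + 3) + 1 ≤ 43 * κ := by omega
  have h5 : 36 * (k + 6 + 1) * (6 * (4 * κ + 3) + 1) ≤ 36 * (8 * κ) * (43 * κ) :=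
    Nat.mul_le_mul (Nat.mul_le_mul_left _ h3) h4
  have h7 : κ ≤ κ ^ 2 := Nat.le_self_pow (by norm_num) κ
  have h8 : 8 * (4 * κ + 3) + 8 ≤ 64 * κ ^ 2 := by
    have : 8 * (4 * κ + 3) + 8 ≤ 64 * κ := by omega
    exact this.trans (Nat.mul_le_mul_left _ h7)
  calc 8 * (4 * κ + 3) + 8 + 36 * (k + 6 + 1) * (6 * (4 * κ + 3) + 1)
      ≤ 64 * κ ^ 2 + 36 * (8 * κ) * (43 * κ) := Nat.add_le_add h8 h5
    _ = 12448 * κ ^ 2 := by ring

theorem S_le (d κ : ℕ) (hκ : 1 ≤ κ) (k : ℕ) (hk : k ≤ κ) :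
    S (fun b Q => d * (8 * Q + 8 + 36 * (b + 1) * (6 * Q + 1))) κ k ≤ k * (d * (12448 * κ ^ 2)) := by
  induction k with
  | zero => simp [S]
  | succ k ih =>
    simp only [S]
    have h1 := ih (by omega)
    have h2 := stage_le k κ hκ (by omega)
    have h3 := Nat.mul_le_mul_left d h2
    rw [add_mul, one_mul]
    exact Nat.add_le_add h1 h3

theorem tree_dim (hn : 2 ≤ n) (G : Fin n → Fin n → Prop) :
    ∃ t : Tree n (Option (Mat n)), (t.depth : ℝ) ≤ 200000 * dim G * Real.logb 2 n ^ 3 ∧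
      (∀ a ∈ t.tests, PairTest G a) ∧ ∀ x, Answer G x (t.run x) := by
  obtain ⟨t, hd, hs, ht⟩ := (treeModel n (PairTest G)).sparse
    (tree_signs (G := G) (PairTest G)) (by omega) (Nat.clog 2 n) (Nat.le_pow_clog (by norm_num) n)
  refine ⟨t, ?_, hs, ht⟩
  set κ := Nat.clog 2 n with hκ
  have hκ1 : 1 ≤ κ := Nat.clog_pos (by norm_num) hn
  have h1 := S_le (dim G) κ hκ1 κ le_rfl
  have h2 := stage_le κ κ hκ1 le_rfl
  have h3 := Nat.mul_le_mul_left (dim G) h2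
  have h4 : t.depth ≤ dim G * (24896 * κ ^ 3) := by
    have h5 : κ * (dim G * (12448 * κ ^ 2)) = dim G * (12448 * κ ^ 3) := by ring
    have h6 : dim G * (12448 * κ ^ 2) ≤ dim G * (12448 * κ ^ 3) := by
      apply Nat.mul_le_mul_left
      apply Nat.mul_le_mul_left
      exact Nat.pow_le_pow_right hκ1 (by norm_num)
    calc t.depth ≤ κ * (dim G * (12448 * κ ^ 2)) + dim G * (12448 * κ ^ 2) :=
          hd.trans (Nat.add_le_add h1 h3)
      _ ≤ dim G * (12448 * κ ^ 3) + dim G * (12448 * κ ^ 3) := Nat.add_le_add h5.le h6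
      _ = dim G * (24896 * κ ^ 3) := by ring
  have h5 : (κ : ℝ) ≤ 2 * Real.logb 2 n := by
    have := clog_le_log hn
    have := one_le_log hn
    linarith
  have h6 : (κ : ℝ) ^ 3 ≤ (2 * Real.logb 2 n) ^ 3 := pow_le_pow_left₀ (by positivity) h5 3
  have h7 : (t.depth : ℝ) ≤ dim G * (24896 * κ ^ 3) := by exact_mod_cast h4
  have hpos : (0 : ℝ) ≤ dim G := Nat.cast_nonneg _
  have hlog := one_le_log hn
  calc (t.depth : ℝ) ≤ dim G * (24896 * κ ^ 3) := h7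
    _ ≤ dim G * (24896 * (2 * Real.logb 2 n) ^ 3) := by
        apply mul_le_mul_of_nonneg_left _ hpos
        linarith
    _ ≤ 200000 * dim G * Real.logb 2 n ^ 3 := by
        have : 0 ≤ dim G * Real.logb 2 n ^ 3 := by positivity
        nlinarith

end Pool.Agent.H81.AP
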