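import Pool.Agent.H81.AP.Defs
import Pool.Agent.H81.AP.Algebra

/-!
# Walks, lengths and computations with a budget
-/

set_option autoImplicit false

namespace Pool.Agent.H81.AP

variable {n : ℕ}

/-- the length of a walk or `⊤` -/
noncomputable def val (x : Fin n → Fin n → ℝ) : Option (List (Fin n × Fin n)) → WithTop ℝ
  | none => ⊤
  | some l => ((len x l : ℝ) : WithTop ℝ)

/-- concatenation -/
def app : Option (List (Fin n × Fin n)) → Option (List (Fin n × Fin n)) →
    Option (List (Fin n × Fin n))
  | some l, some l' => some (l ++ l')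
  | some _, none => none
  | none, _ => none

theorem len_append (x : Fin n → Fin n → ℝ) (l l' : List (Fin n × Fin n)) :
    len x (l ++ l') = len x l + len x l' := by
  unfold len
  rw [List.map_append, List.sum_append]

theorem val_app (x : Fin n → Fin n → ℝ) (r s : Option (List (Fin n × Fin n))) :
    val x (app r s) = val x r + val x s := by
  cases r with
  | none => simp [app, val]
  | some l =>
    cases s with
    | none => simp [app, val]
    | some l' =>
      simp only [app, val]
      rw [len_append, WithTop.coe_add]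

theorem IsWalk.append {G : Fin n → Fin n → Prop} {i j k : Fin n} {l l' : List (Fin n × Fin n)}
    (h : IsWalk G i j l) (h' : IsWalk G j k l') : IsWalk G i k (l ++ l') := by
  induction l generalizing i with
  | nil =>
    have : i = j := h
    subst this
    exact h'
  | cons e l ih => exact ⟨h.1, h.2.1, ih h.2.2⟩

/-- all entries are walks in `G` -/
def Walks (G : Fin n → Fin n → Prop) (R : Mat n) : Prop :=
  ∀ i j l, R i j = some l → IsWalk G i j l

theorem value_add (a b : Fin n → Fin n → ℤ) (x : Fin n → Fin n → ℝ) :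
    value (fun i j => a i j + b i j) x = value a x + value b x := by
  unfold value
  simp only [Int.cast_add, add_mul, Finset.sum_add_distrib]

theorem value_sub (a b : Fin n → Fin n → ℤ) (x : Fin n → Fin n → ℝ) :
    value (fun i j => a i j - b i j) x = value a x - value b x := by
  unfold value
  simp only [Int.cast_sub, sub_mul, Finset.sum_sub_distrib]

theorem cnt_cons (e : Fin n × Fin n) (l : List (Fin n × Fin n)) :
    cnt (e :: l) = fun i j => (if e = (i, j) then 1 else 0) + cnt l i j := by
  funext i j
  unfold cnt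
  rw [List.count_cons]
  by_cases h : e = (i, j)
  · simp [h, add_comm]
  · simp [h]

theorem cnt_append (l l' : List (Fin n × Fin n)) :
    cnt (l ++ l') = fun i j => cnt l i j + cnt l' i j := by
  funext i j
  unfold cnt
  rw [List.count_append]
  push_cast
  rfl

theorem cnt_nil : cnt ([] : List (Fin n × Fin n)) = 0 := by
  funext i j
  simp [cnt]

theorem value_cnt (x : Fin n → Fin n → ℝ) (l : List (Fin n × Fin n)) :
    value (cnt l) x = len x l := by
  induction l with
  | nil =>
    unfold value cnt len
    simp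
  | cons e l ih =>
    have h : value (fun i j => if e = (i, j) then 1 else 0) x = x e.1 e.2 := by
      unfold value
      rw [Finset.sum_eq_single e.1]
      · rw [Finset.sum_eq_single e.2]
        · simp
        · intro j _ hj
          have : e ≠ (e.1, j) := fun h => hj (congrArg Prod.snd h).symm
          simp only [if_neg this, Int.cast_zero, zero_mul]
        · intro h
          exact absurd (Finset.mem_univ _) h
      · intro i _ hi
        apply Finset.sum_eq_zero
        intro j _
        have : e ≠ (i, j) := fun h => hi (congrArg Prod.fst h).symm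
        simp only [if_neg this, Int.cast_zero, zero_mul]
      · intro h
        exact absurd (Finset.mem_univ _) h
    rw [cnt_cons, value_add, h, ih]
    unfold len
    rw [List.map_cons, List.sum_cons]

/-- matrices of walks -/
def WMat (G : Fin n → Fin n → Prop) : Type := {M : Mat n // Walks G M}

/-- a way to compute with a budget -/
structure Model (n : ℕ) (Al : (Fin n → Fin n → ℤ) → Prop) where
  Can : {α : Type} → ℕ → ((Fin n → Fin n → ℝ) → α → Prop) → Prop
  pure : ∀ {α : Type} (a : α) {P : (Fin n → Fin n → ℝ) → α → Prop}, (∀ x, P x a) → Can 0 P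
  bind : ∀ {α β : Type} {d d' : ℕ} {P : (Fin n → Fin n → ℝ) → α → Prop}
    {Q : (Fin n → Fin n → ℝ) → β → Prop}, Can d P → (∀ a, Can d' fun x b => P x a → Q x b) →
      Can (d + d') Q
  mono : ∀ {α : Type} {d d' : ℕ} {P : (Fin n → Fin n → ℝ) → α → Prop}, d ≤ d' → Can d P →
    Can d' P
  test : ∀ a : Fin n → Fin n → ℤ, Al a →
    Can 1 fun x (s : SignType) => s = SignType.sign (value a x)

variable {Al : (Fin n → Fin n → ℤ) → Prop}

theorem Model.map (m : Model n Al) {α β : Type} {d : ℕ} {P : (Fin n → Fin n → ℝ) → α → Prop}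
    {Q : (Fin n → Fin n → ℝ) → β → Prop} (h : m.Can d P) (f : α → β)
    (hf : ∀ x a, P x a → Q x (f a)) : m.Can d Q := by
  have := m.bind (Q := Q) h fun a => m.pure (f a) fun x => hf x a
  rwa [add_zero] at this

theorem Model.weaken (m : Model n Al) {α : Type} {d : ℕ} {P Q : (Fin n → Fin n → ℝ) → α → Prop}
    (h : m.Can d P) (hf : ∀ x a, P x a → Q x a) : m.Can d Q := m.map h id hf

/-- the candidates for an entry -/
def opt (M P Q : Mat n) (a c : Fin n) : Option (Fin n) → Option (List (Fin n × Fin n))
  | none => M a c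
  | some b => app (P a b) (Q b c)

/-- the form of an entry -/
def ocnt (r : Option (List (Fin n × Fin n))) : Fin n → Fin n → ℤ := r.elim 0 cnt

/-- the form of a candidate -/
def oform (M P Q : Mat n) (a c : Fin n) : Option (Fin n) → Fin n → Fin n → ℤ
  | none => ocnt (M a c)
  | some b => fun i j => ocnt (P a b) i j + ocnt (Q b c) i j

theorem value_oform {M P Q : Mat n} {a c : Fin n} {o : Option (Fin n)}
    {l : List (Fin n × Fin n)} (h : opt M P Q a c o = some l) (x : Fin n → Fin n → ℝ) :
    value (oform M P Q a c o) x = len x l := by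
  cases o with
  | none =>
    have h' : M a c = some l := h
    simp only [oform, ocnt, h', Option.elim_some]
    exact value_cnt x l
  | some b =>
    have h' : app (P a b) (Q b c) = some l := h
    simp only [oform]
    rw [value_add]
    cases hp : P a b with
    | none =>
      rw [hp] at h'
      simp [app] at h'
    | some l1 =>
      cases hq : Q b c with
      | none =>
        rw [hp, hq] at h'
        simp [app] at h'
      | some l2 =>
        rw [hp, hq] at h'
        simp only [app, Option.some.injEq] at h'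
        simp only [ocnt, Option.elim_some]
        rw [value_cnt, value_cnt, ← h', len_append]

/-- the index type of the comparisons of two candidates for the same entry -/
abbrev Idx (A B C : Finset (Fin n)) : Type := Option (A × C × Option B × Option B)

/-- the forms -/
def F (A B C : Finset (Fin n)) (M P Q : Mat n) : Idx A B C → Fin n → Fin n → ℤ
  | none => 0
  | some q => fun i j => oform M P Q q.1 q.2.1 (q.2.2.1.map (↑)) i j -
      oform M P Q q.1 q.2.1 (q.2.2.2.map (↑)) i j

open Classical in
/-- selection of the best candidates with the help of the signs -/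
noncomputable def sel (A B C : Finset (Fin n)) (M P Q : Mat n) (r : Idx A B C → SignType) : Mat n :=
  fun a c =>
    if h : ∃ (ha : a ∈ A) (hc : c ∈ C) (o : Option B), opt M P Q a c (o.map (↑)) ≠ none ∧
        ∀ o' : Option B, opt M P Q a c (o'.map (↑)) ≠ none → r (some (⟨a, ha⟩, ⟨c, hc⟩, o, o')) ≠ 1
    then opt M P Q a c (h.choose_spec.choose_spec.choose.map (↑)) else none

theorem sel_spec (A B C : Finset (Fin n)) (M P Q : Mat n) (r : Idx A B C → SignType)
    (x : Fin n → Fin n → ℝ) (hr : ∀ j, r j = SignType.sign (value (F A B C M P Q j) x))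
    {a c : Fin n} (ha : a ∈ A) (hc : c ∈ C) :
    (∀ o : Option B, val x (sel A B C M P Q r a c) ≤ val x (opt M P Q a c (o.map (↑)))) ∧
      ∃ o : Option B, val x (opt M P Q a c (o.map (↑))) ≤ val x (sel A B C M P Q r a c) := by
  classical
  have hF : ∀ o o' : Option B, value (F A B C M P Q (some (⟨a, ha⟩, ⟨c, hc⟩, o, o'))) x =
      value (oform M P Q a c (o.map (↑))) x - value (oform M P Q a c (o'.map (↑))) x := by
    intro o o'
    simp only [F]
    rw [value_sub]
  by_cases hex : ∃ o : Option B, opt M P Q a c (o.map (↑)) ≠ none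
  · have h : ∃ (ha : a ∈ A) (hc : c ∈ C) (o : Option B), opt M P Q a c (o.map (↑)) ≠ none ∧
        ∀ o' : Option B, opt M P Q a c (o'.map (↑)) ≠ none →
          r (some (⟨a, ha⟩, ⟨c, hc⟩, o, o')) ≠ 1 := by
      obtain ⟨o1, ho1⟩ := hex
      obtain ⟨o, ho, hmin⟩ := Finset.exists_min_image
        (Finset.univ.filter fun o : Option B => opt M P Q a c (o.map (↑)) ≠ none)
        (fun o => value (oform M P Q a c (o.map (↑))) x) ⟨o1, by simpa using ho1⟩
      refine ⟨ha, hc, o, (Finset.mem_filter.1 ho).2, ?_⟩
      intro o' ho' h1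
      rw [hr, hF, sign_eq_one_iff, sub_pos] at h1
      exact absurd (hmin o' (Finset.mem_filter.2 ⟨Finset.mem_univ _, ho'⟩)) (not_le.2 h1)
    have hsel : sel A B C M P Q r a c =
        opt M P Q a c (h.choose_spec.choose_spec.choose.map (↑)) := by
      unfold sel
      rw [dif_pos h]
    obtain ⟨hv, hmin⟩ := h.choose_spec.choose_spec.choose_spec
    rw [hsel]
    refine ⟨?_, _, le_rfl⟩
    intro o'
    generalize h.choose_spec.choose_spec.choose = o at hv hmin
    obtain ⟨l, hl⟩ := Option.ne_none_iff_exists'.1 hv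
    by_cases ho' : opt M P Q a c (o'.map (↑)) = none
    · rw [ho']
      simp [val]
    · obtain ⟨l', hl'⟩ := Option.ne_none_iff_exists'.1 ho'
      have h1 := hmin o' ho'
      rw [hr, hF, Ne, sign_eq_one_iff, sub_pos, not_lt, value_oform hl, value_oform hl'] at h1
      rw [hl, hl']
      simpa [val] using h1
  · push Not at hex
    refine ⟨?_, none, ?_⟩
    · intro o
      rw [hex o]
      simp [val]
    · have hsel : sel A B C M P Q r a c = none := by
        unfold sel
        rw [dif_neg]
        rintro ⟨_, _, o, ho, _⟩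
        exact ho (hex o)
      rw [hsel]
      simp [val]

theorem sel_walks {G : Fin n → Fin n → Prop} (A B C : Finset (Fin n)) {M P Q : Mat n}
    (hM : Walks G M) (hP : Walks G P) (hQ : Walks G Q) (r : Idx A B C → SignType) :
    Walks G (sel A B C M P Q r) := by
  classical
  intro a c l hl
  unfold sel at hl
  split_ifs at hl with h
  generalize Option.map _ _ = o at hl
  cases o with
  | none => exact hM a c l hl
  | some b =>
    have h' : app (P a b) (Q b c) = some l := hl
    cases hp : P a b with
    | none =>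
      rw [hp] at h'
      simp [app] at h'
    | some l1 =>
      cases hq : Q b c with
      | none =>
        rw [hp, hq] at h'
        simp [app] at h'
      | some l2 =>
        rw [hp, hq] at h'
        simp only [app, Option.some.injEq] at h'
        rw [← h']
        exact (hP a b l1 hp).append (hQ b c l2 hq)

/-- what a product has to satisfy -/
def MacPost {G : Fin n → Fin n → Prop} (A B C : Finset (Fin n)) (M P Q : WMat G)
    (x : Fin n → Fin n → ℝ) (R : WMat G) : Prop :=
  Mac A B C (fun i j => val x (M.1 i j)) (fun i j => val x (P.1 i j)) (fun i j => val x (Q.1 i j))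
    (fun i j => val x (R.1 i j))

theorem Model.mac (m : Model n Al) {G : Fin n → Fin n → Prop} (A B C : Finset (Fin n))
    (M P Q : WMat G) {d : ℕ} (h : m.Can d fun x (r : Idx A B C → SignType) =>
      ∀ j, r j = SignType.sign (value (F A B C M.1 P.1 Q.1 j) x)) :
    m.Can d (MacPost A B C M P Q) := by
  refine m.map h (fun r => (⟨sel A B C M.1 P.1 Q.1 r, sel_walks A B C M.2 P.2 Q.2 r⟩ : WMat G)) ?_
  intro x r hr
  obtain ⟨M, hM⟩ := M
  obtain ⟨P, hP⟩ := P
  obtain ⟨Q, hQ⟩ := Q
  refine ⟨?_, ?_, ?_⟩
  · intro a ha c hc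
    exact (sel_spec A B C M P Q r x hr ha hc).1 none
  · intro a ha c hc b hb
    have h1 := (sel_spec A B C M P Q r x hr ha hc).1 (some ⟨b, hb⟩)
    simp only [Option.map_some, opt] at h1
    rwa [val_app] at h1
  · intro a ha c hc
    obtain ⟨o, ho⟩ := (sel_spec A B C M P Q r x hr ha hc).2
    cases o with
    | none => exact Or.inl ho
    | some b =>
      simp only [Option.map_some, opt] at ho
      rw [val_app] at ho
      exact Or.inr ⟨b, b.2, ho⟩


theorem oform_walk {G : Fin n → Fin n → Prop} {M P Q : Mat n} (hM : Walks G M) (hP : Walks G P)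
    (hQ : Walks G Q) (a c : Fin n) (o : Option (Fin n)) :
    ∃ w : List (Fin n × Fin n), (∃ i j, IsWalk G i j w) ∧ oform M P Q a c o = cnt w := by
  have h0 : ∀ (N : Mat n), Walks G N → ∀ i j : Fin n,
      ∃ w, IsWalk G i j w ∧ ocnt (N i j) = cnt w ∨ ocnt (N i j) = 0 := by
    intro N hN i j
    cases h : N i j with
    | none => exact ⟨[], Or.inr rfl⟩
    | some l => exact ⟨l, Or.inl ⟨hN i j l h, rfl⟩⟩
  cases o with
  | none =>
    obtain ⟨w, ⟨h1, h2⟩ | h2⟩ := h0 M hM a c
    · exact ⟨w, ⟨a, c, h1⟩, h2⟩
    · exact ⟨[], ⟨a, a, rfl⟩, by rw [cnt_nil]; exact h2⟩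
  | some b =>
    obtain ⟨w, ⟨h1, h2⟩ | h2⟩ := h0 P hP a b <;> obtain ⟨w', ⟨h1', h2'⟩ | h2'⟩ := h0 Q hQ b c
    · refine ⟨w ++ w', ⟨a, c, h1.append h1'⟩, ?_⟩
      rw [cnt_append]
      simp only [oform, h2, h2']
    · refine ⟨w, ⟨a, b, h1⟩, ?_⟩
      simp only [oform, h2, h2']
      simp
    · refine ⟨w', ⟨b, c, h1'⟩, ?_⟩
      simp only [oform, h2, h2']
      simp
    · refine ⟨[], ⟨a, a, rfl⟩, ?_⟩
      rw [cnt_nil]
      funext i j
      simp only [oform, h2, h2']
      simp

theorem F_walk {G : Fin n → Fin n → Prop} (A B C : Finset (Fin n)) (M P Q : WMat G)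
    (p : Idx A B C) (i0 : Fin n) :
    ∃ u w : List (Fin n × Fin n), (∃ i j, IsWalk G i j u) ∧ (∃ i j, IsWalk G i j w) ∧
      F A B C M.1 P.1 Q.1 p = fun i j => cnt u i j - cnt w i j := by
  cases p with
  | none =>
    refine ⟨[], [], ⟨i0, i0, rfl⟩, ⟨i0, i0, rfl⟩, ?_⟩
    rw [cnt_nil]
    funext i j
    simp [F]
  | some q =>
    obtain ⟨u, hu, h1⟩ := oform_walk M.2 P.2 Q.2 q.1 q.2.1 (q.2.2.1.map (↑))
    obtain ⟨w, hw, h2⟩ := oform_walk M.2 P.2 Q.2 q.1 q.2.1 (q.2.2.2.map (↑))
    refine ⟨u, w, hu, hw, ?_⟩
    simp only [F]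
    rw [h1, h2]

/-- the tests of the algorithm are comparisons of the total lengths of two pairs of walks -/
theorem F_pairTest {G : Fin n → Fin n → Prop} (A B C : Finset (Fin n)) (M P Q : WMat G)
    (p q : Idx A B C) (hn : 0 < n) :
    PairTest G (fun i j => F A B C M.1 P.1 Q.1 p i j - F A B C M.1 P.1 Q.1 q i j) := by
  obtain ⟨u, w, hu, hw, h1⟩ := F_walk A B C M P Q p ⟨0, hn⟩
  obtain ⟨z, v, hz, hv, h2⟩ := F_walk A B C M P Q q ⟨0, hn⟩
  refine ⟨u, v, w, z, hu, hv, hw, hz, ?_⟩
  funext i j
  rw [h1, h2]
  ring

theorem cnt_pairTest {G : Fin n → Fin n → Prop} {i j : Fin n} {l : List (Fin n × Fin n)}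
    (h : IsWalk G i j l) : PairTest G (cnt l) := by
  refine ⟨l, [], [], [], ⟨i, j, h⟩, ⟨i, i, rfl⟩, ⟨i, i, rfl⟩, ⟨i, i, rfl⟩, ?_⟩
  funext a b
  rw [cnt_nil]
  simp

end Pool.Agent.H81.AP
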