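import Pool.Agent.H81.AP.Engine

/-!
# The linear decision trees
-/

set_option autoImplicit false

open Finset Set

namespace Pool.Agent.H81.AP

open Pool.Agent.H81

variable {n : ℕ}

namespace Tree

/-- composition -/
def bind {α β : Type} (f : α → Tree n β) : Tree n α → Tree n β
  | leaf r => f r
  | node a neg zer pos => node a (neg.bind f) (zer.bind f) (pos.bind f)

theorem bind_run {α β : Type} (f : α → Tree n β) (x : Fin n → Fin n → ℝ) (t : Tree n α) :
    (t.bind f).run x = (f (t.run x)).run x := by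
  induction t with
  | leaf r => rfl
  | node a neg zer pos h1 h2 h3 =>
    simp only [bind, run, h1, h2, h3]
    split_ifs <;> rfl

theorem bind_depth {α β : Type} (f : α → Tree n β) (d : ℕ) (hd : ∀ a, (f a).depth ≤ d)
    (t : Tree n α) : (t.bind f).depth ≤ t.depth + d := by
  induction t with
  | leaf r =>
    simp only [bind, depth]
    have := hd r
    omega
  | node a neg zer pos h1 h2 h3 =>
    simp only [bind, depth]
    omega

theorem bind_tests {α β : Type} (f : α → Tree n β) (Al : (Fin n → Fin n → ℤ) → Prop)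
    (hf : ∀ a, ∀ c ∈ (f a).tests, Al c) (t : Tree n α) (ht : ∀ c ∈ t.tests, Al c) :
    ∀ c ∈ (t.bind f).tests, Al c := by
  induction t with
  | leaf r => exact hf r
  | node a neg zer pos h1 h2 h3 =>
    rintro c (((hc | hc) | hc) | hc)
    · exact ht c (Or.inl (Or.inl (Or.inl hc)))
    · exact h1 (fun c hc => ht c (Or.inl (Or.inl (Or.inr hc)))) c hc
    · exact h2 (fun c hc => ht c (Or.inl (Or.inr hc))) c hc
    · exact h3 (fun c hc => ht c (Or.inr hc)) c hc

end Tree

/-- computation by linear decision trees -/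
def treeModel (n : ℕ) (Al : (Fin n → Fin n → ℤ) → Prop) : Model n Al where
  Can {α} d P := ∃ t : Tree n α, t.depth ≤ d ∧ (∀ c ∈ t.tests, Al c) ∧ ∀ x, P x (t.run x)
  pure a _ hP := ⟨Tree.leaf a, le_rfl, fun _ hc => absurd hc (Set.notMem_empty _), hP⟩
  bind := by
    rintro α β d d' P Q ⟨t, ht, hAl, hP⟩ h
    choose f hf hAlf hQ using h
    refine ⟨t.bind f, (Tree.bind_depth f d' hf t).trans (by omega),
      Tree.bind_tests f Al hAlf t hAl, ?_⟩
    intro x
    rw [Tree.bind_run]
    exact hQ _ x (hP x)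
  mono := by
    rintro α d d' P h ⟨t, ht, hP⟩
    exact ⟨t, ht.trans h, hP⟩
  test a ha := by
    refine ⟨Tree.node a (Tree.leaf (-1)) (Tree.leaf 0) (Tree.leaf 1), by simp [Tree.depth], ?_, ?_⟩
    · rintro c (((hc | hc) | hc) | hc)
      · rw [Set.mem_singleton_iff] at hc
        rw [hc]
        exact ha
      · exact absurd hc (Set.notMem_empty _)
      · exact absurd hc (Set.notMem_empty _)
      · exact absurd hc (Set.notMem_empty _)
    intro x
    simp only [Tree.run]
    split_ifs with h1 h2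
    · rw [sign_neg h1]
    · rw [h2, sign_zero]
    · rw [sign_pos (lt_of_le_of_ne (not_lt.1 h1) (Ne.symm h2))]

theorem tree_of_solv {J : Type} (f : J → Fin n → Fin n → ℤ) {c : ℝ}
    {X : Set (Fin n → Fin n → ℝ)} (h : TS.Solv (fun j x => value (f j) x) c X) :
    ∃ t : Tree n (J → SignType), (t.depth : ℝ) ≤ c ∧
      (∀ a ∈ t.tests, ∃ p q, a = fun i j => f p i j - f q i j) ∧
      ∀ x ∈ X, ∀ j, t.run x j = SignType.sign (value (f j) x) := by
  induction h with
  | done c X hc h =>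
    by_cases hX : X.Nonempty
    · obtain ⟨x0, hx0⟩ := hX
      exact ⟨Tree.leaf fun j => SignType.sign (value (f j) x0), by simpa [Tree.depth] using hc,
        fun a ha => absurd ha (Set.notMem_empty a), fun x hx j => h j x0 hx0 x hx⟩
    · exact ⟨Tree.leaf fun _ => 0, by simpa [Tree.depth] using hc,
        fun a ha => absurd ha (Set.notMem_empty a), fun x hx => absurd ⟨x, hx⟩ hX⟩
  | test c X p q h1 h2 h3 ih1 ih2 ih3 =>
    obtain ⟨t1, d1, s1, r1⟩ := ih1
    obtain ⟨t2, d2, s2, r2⟩ := ih2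
    obtain ⟨t3, d3, s3, r3⟩ := ih3
    refine ⟨Tree.node (fun i j => f p i j - f q i j) t1 t2 t3, ?_, ?_, ?_⟩
    · have : ((max t1.depth (max t2.depth t3.depth) : ℕ) : ℝ) ≤ c - 1 := by
        push_cast
        exact max_le d1 (max_le d2 d3)
      simp only [Tree.depth]
      push_cast at this ⊢
      linarith
    · rintro a (((ha | ha) | ha) | ha)
      · exact ⟨p, q, ha⟩
      · exact s1 a ha
      · exact s2 a ha
      · exact s3 a ha
    · intro x hx j
      simp only [Tree.run]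
      rw [value_sub]
      split_ifs with hl he
      · exact r1 x ⟨hx, by simpa using sub_neg.1 hl⟩ j
      · exact r2 x ⟨hx, by simpa using sub_eq_zero.1 he⟩ j
      · refine r3 x ⟨hx, ?_⟩ j
        have : 0 < value (f p) x - value (f q) x := lt_of_le_of_ne (not_lt.1 hl) (Ne.symm he)
        simpa using sub_pos.1 this

theorem tree_mac (hn : 0 < n) (G : Fin n → Fin n → Prop) (k : ℕ) (A B C : Finset (Fin n))
    (M' P' Q' : WMat G)
    (hA : A.card ≤ 2 ^ k) (hB : B.card ≤ 2 ^ k) (hC : C.card ≤ 2 ^ k) :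
    (treeModel n (PairTest G)).Can (4 ^ k * (16512 * k + 13092)) (MacPost A B C M' P' Q') := by
  classical
  apply Model.mac
  obtain ⟨M, hM⟩ := id (⟨M'.1, rfl⟩ : ∃ M, M'.1 = M)
  obtain ⟨P, hP⟩ := id (⟨P'.1, rfl⟩ : ∃ P, P'.1 = P)
  obtain ⟨Q, hQ⟩ := id (⟨Q'.1, rfl⟩ : ∃ Q, Q'.1 = Q)
  rw [hM, hP, hQ]
  have hsolv := TS.Solv_main (compress_F A B C M P Q) (by omega) _ Set.univ le_rfl
    ⟨fun _ _ => 0, trivial⟩
  obtain ⟨t, hd, hs, ht⟩ := tree_of_solv _ hsolv
  refine ⟨t, ?_, ?_, fun x => ht x trivial⟩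
  swap
  · intro c hc
    obtain ⟨p, q, rfl⟩ := hs c hc
    rw [← hM, ← hP, ← hQ]
    exact F_pairTest A B C M' P' Q' p q hn
  have hnum := num_le hA hB hC
  have hidx := idx_le hA hB hC
  set y := Fintype.card (Idx A B C) with hy
  set m := num A B C with hm
  have hlog1 : Real.logb 2 (TS.N (fun j x => value (F A B C M P Q j) x) Set.univ) ≤
      3 * 4 ^ k * (8 * k + 8) := by
    have h1 : TS.N (fun j x => value (F A B C M P Q j) x) Set.univ ≤
        (2 ^ (8 * k + 8)) ^ (3 * 4 ^ k) := by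
      refine (N_F A B C M P Q).trans ?_
      rw [← hy, ← hm]
      refine (Nat.pow_le_pow_left ?_ m).trans (Nat.pow_le_pow_right (by positivity) hnum)
      have h2 : y ^ 2 ≤ (2 ^ (4 * k + 3)) ^ 2 := Nat.pow_le_pow_left hidx 2
      have h3 : 2 ^ (8 * k + 8) = 4 * (2 ^ (4 * k + 3)) ^ 2 := by
        rw [← pow_mul, show (4 : ℕ) = 2 ^ 2 by norm_num, ← pow_add]
        congr 1
        ring
      have h4 : 1 ≤ (2 ^ (4 * k + 3)) ^ 2 := Nat.one_le_iff_ne_zero.2 (by positivity)
      rw [h3]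
      omega
    calc Real.logb 2 (TS.N (fun j x => value (F A B C M P Q j) x) Set.univ)
        ≤ Real.logb 2 (((2 : ℝ) ^ (8 * k + 8)) ^ (3 * 4 ^ k)) := by
          apply Real.logb_le_logb_of_le (by norm_num)
          · exact_mod_cast TS.N_pos (v := fun j x => value (F A B C M P Q j) x)
              (X := Set.univ) ⟨fun _ _ => 0, trivial⟩
          · exact_mod_cast h1
      _ = 3 * 4 ^ k * (8 * k + 8) := by
          rw [Real.logb_pow, Real.logb_pow, Real.logb_self_eq_one (by norm_num)]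
          push_cast
          ring
  have hlog2 : Real.logb (8 / 7) 2 ≤ 6 := by
    rw [Real.logb_le_iff_le_rpow (by norm_num) (by norm_num)]
    norm_num
  have hrho : TS.rho (TS.Open (fun j x => value (F A B C M P Q j) x) Set.univ).card ≤
      24 * k + 19 := by
    have h1 : (TS.Open (fun j x => value (F A B C M P Q j) x) Set.univ).card ≤ 2 ^ (4 * k + 3) := by
      refine le_trans ?_ hidx
      rw [hy, ← Finset.card_univ]
      exact Finset.card_le_card (Finset.subset_univ _)
    refine (TS.rho_mono h1).trans ?_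
    unfold TS.rho
    rw [if_neg (by positivity)]
    push_cast
    rw [Real.logb_pow]
    push_cast
    have h2 : (4 * (k : ℝ) + 3) * Real.logb (8 / 7) 2 ≤ (4 * k + 3) * 6 :=
      mul_le_mul_of_nonneg_left hlog2 (by positivity)
    linarith
  have hD : ((6 * (6 * m + 1) : ℕ) : ℝ) ≤ 114 * 4 ^ k := by
    have h1 : 6 * (6 * m + 1) ≤ 114 * 4 ^ k := by
      have : 1 ≤ 4 ^ k := Nat.one_le_iff_ne_zero.2 (by positivity)
      omega
    exact_mod_cast h1
  have hmul : ((6 * (6 * m + 1) : ℕ) : ℝ) *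
      TS.rho (TS.Open (fun j x => value (F A B C M P Q j) x) Set.univ).card ≤
      114 * 4 ^ k * (24 * k + 19) :=
    mul_le_mul hD hrho (TS.rho_nonneg _) (by positivity)
  have hfin : (t.depth : ℝ) ≤ ((4 ^ k * (16512 * k + 13092) : ℕ) : ℝ) := by
    refine hd.trans ?_
    push_cast at hmul hlog1 ⊢
    nlinarith [hmul, hlog1]
  exact_mod_cast hfin

theorem T_le (k : ℕ) : T (fun k => 4 ^ k * (16512 * k + 13092)) k ≤ 4 ^ k * (49536 * k + 1) := by
  induction k with
  | zero => simp [T]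
  | succ k ih =>
    simp only [T]
    rw [pow_succ]
    nlinarith [ih]

/-- shortest walks for all pairs by a linear decision tree -/
theorem apsp_tree (hn : 2 ≤ n) (G : Fin n → Fin n → Prop) :
    ∃ t : Tree n (Option (Mat n)), (t.depth : ℝ) ≤ 400000 * n ^ 2 * Real.logb 2 n ∧
      (∀ a ∈ t.tests, PairTest G a) ∧ ∀ x, Answer G x (t.run x) := by
  obtain ⟨t, hd, hs, ht⟩ := (treeModel n (PairTest G)).apsp G (fun _ _ _ h => cnt_pairTest h) _
    (tree_mac (by omega) G) (Nat.clog 2 n) (Nat.le_pow_clog (by norm_num) n)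
  refine ⟨t, ?_, hs, ht⟩
  set k := Nat.clog 2 n with hk
  have hk1 : 2 ^ (k - 1) < n := Nat.pow_pred_clog_lt_self (by norm_num) (by omega)
  have hkpos : 1 ≤ k := Nat.clog_pos (by norm_num) hn
  obtain ⟨j, hj⟩ : ∃ j, k = j + 1 := ⟨k - 1, by omega⟩
  rw [hj] at hk1
  simp only [Nat.add_sub_cancel] at hk1
  have hnR : (2 : ℝ) ≤ n := by exact_mod_cast hn
  have hj1 : ((2 : ℝ) ^ j) ≤ n := by exact_mod_cast hk1.le
  have hL : (j : ℝ) ≤ Real.logb 2 n := by
    rw [Real.le_logb_iff_rpow_le (by norm_num) (by linarith), Real.rpow_natCast]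
    exact hj1
  have hL1 : 1 ≤ Real.logb 2 n := by
    rw [Real.le_logb_iff_rpow_le (by norm_num) (by linarith), Real.rpow_one]
    exact hnR
  have h4 : ((4 : ℝ) ^ k) ≤ 4 * (n : ℝ) ^ 2 := by
    rw [hj, pow_succ, show (4 : ℝ) = 2 ^ 2 by norm_num, ← pow_mul, mul_comm 2 j, pow_mul]
    have := pow_le_pow_left₀ (by positivity) hj1 2
    nlinarith
  have h5 : (t.depth : ℝ) ≤ 4 ^ k * (49536 * k + 1) := by
    exact_mod_cast hd.trans (T_le k)
  have h6 : (49536 * (k : ℝ) + 1) ≤ 99073 * Real.logb 2 n := by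
    rw [hj]
    push_cast
    linarith
  calc (t.depth : ℝ) ≤ 4 ^ k * (49536 * k + 1) := h5
    _ ≤ (4 * (n : ℝ) ^ 2) * (99073 * Real.logb 2 n) := by
        apply mul_le_mul h4 h6 (by positivity) (by positivity)
    _ ≤ 400000 * n ^ 2 * Real.logb 2 n := by
        have : 0 ≤ (n : ℝ) ^ 2 * Real.logb 2 n := by positivity
        nlinarith

end Pool.Agent.H81.AP
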