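import Pool.Agent.H81.AP.Model

/-!
# Splitting and shortening walks
-/

set_option autoImplicit false

open Finset

namespace Pool.Agent.H81.AP

variable {n : ℕ} {G : Fin n → Fin n → Prop}

theorem IsWalk.split {i j : Fin n} {l l' : List (Fin n × Fin n)} (h : IsWalk G i j (l ++ l')) :
    ∃ v, IsWalk G i v l ∧ IsWalk G v j l' := by
  induction l generalizing i with
  | nil => exact ⟨i, rfl, h⟩
  | cons e l ih =>
    obtain ⟨h1, h2, h3⟩ := h
    obtain ⟨v, h4, h5⟩ := ih h3
    exact ⟨v, ⟨h1, h2, h4⟩, h5⟩

theorem IsWalk.unique {i a b : Fin n} {l : List (Fin n × Fin n)} (h : IsWalk G i a l)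
    (h' : IsWalk G i b l) : a = b := by
  induction l generalizing i with
  | nil =>
    have h1 : i = a := h
    have h2 : i = b := h'
    rw [← h1, ← h2]
  | cons e l ih => exact ih h.2.2 h'.2.2

theorem IsWalk.arcs {i j : Fin n} {l : List (Fin n × Fin n)} (h : IsWalk G i j l) :
    ∀ e ∈ l, G e.1 e.2 := by
  induction l generalizing i with
  | nil => simp
  | cons e l ih =>
    intro a ha
    rcases List.mem_cons.1 ha with rfl | ha
    · exact h.2.1
    · exact ih h.2.2 a ha

theorem len_nil (x : Fin n → Fin n → ℝ) : len x [] = 0 := by simp [len]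

/-- if no closed walk with at most `n` arcs is negative then every walk can be replaced by a walk
with at most `n` arcs which is not longer -/
theorem reduce (x : Fin n → Fin n → ℝ)
    (hneg : ∀ i l, IsWalk G i i l → l.length ≤ n → 0 ≤ len x l) :
    ∀ (k : ℕ) (l : List (Fin n × Fin n)), l.length ≤ k → ∀ i j, IsWalk G i j l →
      ∃ l', IsWalk G i j l' ∧ l'.length ≤ n ∧ len x l' ≤ len x l := by
  intro k
  induction k with
  | zero =>
    intro l hl i j h
    exact ⟨l, h, by omega, le_rfl⟩
  | succ k ih =>
    intro l hl i j h
    by_cases hn : l.length ≤ n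
    · exact ⟨l, h, hn, le_rfl⟩
    · have hv : ∀ p : ℕ, ∃ v, IsWalk G i v (l.take p) ∧ IsWalk G v j (l.drop p) := by
        intro p
        apply IsWalk.split
        rw [List.take_append_drop]
        exact h
      choose v hv1 hv2 using hv
      obtain ⟨p, q, hpq, hvpq⟩ := Fintype.exists_ne_map_eq_of_card_lt
        (fun p : Fin (n + 1) => v p) (by simp)
      wlog hlt : p < q generalizing p q with H
      · exact H q p hpq.symm hvpq.symm (lt_of_le_of_ne (not_lt.1 hlt) hpq.symm)
      have hlt' : (p : ℕ) < (q : ℕ) := hlt
      have hq := q.2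
      set mid := (l.drop p).take (q - p) with hmid
      have hdrop : (l.drop p).drop (q - p) = l.drop q := by
        rw [List.drop_drop]
        congr 1
        omega
      have hsplit : l.drop p = mid ++ l.drop q := by
        rw [hmid, ← hdrop, List.take_append_drop]
      have htake : l.take q = l.take p ++ mid := by
        have h1 : l.take ((p : ℕ) + ((q : ℕ) - p)) = l.take p ++ (l.drop p).take (q - p) :=
          List.take_add
        have h0 : (p : ℕ) + ((q : ℕ) - p) = q := by omega
        rw [h0] at h1
        rw [hmid]
        exact h1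
      have h2 := hv2 p
      rw [hsplit] at h2
      obtain ⟨u, hu1, hu2⟩ := h2.split
      have hu : u = v q := by
        have h3 := (hv1 p).append hu1
        rw [← htake] at h3
        exact h3.unique (hv1 q)
      rw [hu, ← hvpq] at hu1
      have hl0 : l = l.take p ++ (mid ++ l.drop q) := by
        rw [← hsplit, List.take_append_drop]
      have hmidlen : mid.length ≤ n := by
        rw [hmid, List.length_take]
        omega
      have hpos := hneg _ _ hu1 hmidlen
      have hnew : IsWalk G i j (l.take p ++ l.drop q) := by
        refine (hv1 p).append ?_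
        rw [hvpq]
        exact hv2 q
      have hlen : len x (l.take p ++ l.drop q) ≤ len x l := by
        have e1 : len x l = len x (l.take p) + (len x mid + len x (l.drop q)) := by
          conv_lhs => rw [hl0]
          rw [len_append, len_append]
        rw [e1, len_append]
        linarith
      obtain ⟨l', h4, h5, h6⟩ := ih (l.take p ++ l.drop q) (by
        rw [List.length_append, List.length_take, List.length_drop]
        omega) i j hnew
      exact ⟨l', h4, h5, h6.trans hlen⟩

/-- the form vanishes outside the arcs of `G` -/
def Supp (G : Fin n → Fin n → Prop) (a : Fin n → Fin n → ℤ) : Prop := ∀ i j, ¬ G i j → a i j = 0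

/-- the sum of the absolute values of the coefficients -/
def norm2 (a : Fin n → Fin n → ℤ) : ℕ := ∑ i, ∑ j, (a i j).natAbs

theorem supp_cnt {i j : Fin n} {l : List (Fin n × Fin n)} (h : IsWalk G i j l) :
    Supp G (cnt l) := by
  intro a b hab
  unfold cnt
  have : l.count (a, b) = 0 := by
    rw [List.count_eq_zero]
    intro hmem
    exact hab (h.arcs _ hmem)
  rw [this]
  rfl

theorem norm2_zero : norm2 (0 : Fin n → Fin n → ℤ) = 0 := by
  unfold norm2
  simp

theorem norm2_add (a b : Fin n → Fin n → ℤ) :
    norm2 (fun i j => a i j + b i j) ≤ norm2 a + norm2 b := by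
  unfold norm2
  rw [← Finset.sum_add_distrib]
  apply Finset.sum_le_sum
  intro i _
  rw [← Finset.sum_add_distrib]
  exact Finset.sum_le_sum fun j _ => Int.natAbs_add_le _ _

theorem norm2_sub (a b : Fin n → Fin n → ℤ) :
    norm2 (fun i j => a i j - b i j) ≤ norm2 a + norm2 b := by
  unfold norm2
  rw [← Finset.sum_add_distrib]
  apply Finset.sum_le_sum
  intro i _
  rw [← Finset.sum_add_distrib]
  exact Finset.sum_le_sum fun j _ => Int.natAbs_sub_le _ _

theorem norm2_cnt (l : List (Fin n × Fin n)) : norm2 (cnt l) ≤ l.length := by
  induction l with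
  | nil =>
    rw [cnt_nil, norm2_zero]
    simp
  | cons e l ih =>
    rw [cnt_cons]
    refine (norm2_add _ _).trans ?_
    have h1 : norm2 (fun i j => if e = (i, j) then 1 else 0) = 1 := by
      unfold norm2
      rw [Finset.sum_eq_single e.1]
      · rw [Finset.sum_eq_single e.2]
        · simp
        · intro j _ hj
          have : e ≠ (e.1, j) := fun h => hj (congrArg Prod.snd h).symm
          simp only [if_neg this, Int.natAbs_zero]
        · intro h
          exact absurd (Finset.mem_univ _) h
      · intro i _ hi
        apply Finset.sum_eq_zero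
        intro j _
        have : e ≠ (i, j) := fun h => hi (congrArg Prod.fst h).symm
        simp only [if_neg this, Int.natAbs_zero]
      · intro h
        exact absurd (Finset.mem_univ _) h
    rw [h1, List.length_cons]
    omega

end Pool.Agent.H81.AP
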