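import Pool.Agent.H81.AP.Dim
import Pool.Agent.H81.AP.Walks
import Pool.Agent.H81.AP.Trees
import Pool.Agent.H81.AP.Certs

/-!
# The space of the differences of two walks with the same ends
-/

set_option autoImplicit false

open Finset Set

namespace Pool.Agent.H81.AP

open Pool.Agent.H81 Module

variable {n : ℕ} {G : Fin n → Fin n → Prop}

/-- few coordinates are sufficient for the vectors of a subspace -/
theorem coords (W : Submodule ℝ (Fin n × Fin n → ℝ)) :
    ∃ (r : ℕ) (E : Fin r → Fin n × Fin n), r ≤ finrank ℝ W ∧ Function.Injective E ∧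
      ∀ x : Fin n × Fin n → ℝ, ∃ y : Fin r → ℝ, ∀ f ∈ W,
        ∑ e, f e * x e = ∑ t, f (E t) * y t := by
  classical
  let v : Fin n × Fin n → Dual ℝ W := fun e => (LinearMap.proj e) ∘ₗ W.subtype
  obtain ⟨κ, a, ha, hspan, hli⟩ := exists_linearIndependent' ℝ v
  have : Fintype κ := Fintype.ofInjective a ha
  refine ⟨Fintype.card κ, a ∘ (Fintype.equivFin κ).symm, ?_, ha.comp (Equiv.injective _), ?_⟩
  · have := hli.fintype_card_le_finrank
    rwa [Subspace.dual_finrank_eq] at this
  · intro x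
    have hx : ∑ e, x e • v e ∈ Submodule.span ℝ (Set.range v) :=
      Submodule.sum_mem _ fun e _ => Submodule.smul_mem _ _ (Submodule.subset_span ⟨e, rfl⟩)
    rw [← hspan, Submodule.mem_span_range_iff_exists_fun] at hx
    obtain ⟨c, hc⟩ := hx
    refine ⟨c ∘ (Fintype.equivFin κ).symm, fun f hf => ?_⟩
    have h1 := congrArg (fun φ : Dual ℝ W => φ ⟨f, hf⟩) hc
    simp only [LinearMap.coe_sum, Finset.sum_apply, LinearMap.smul_apply, v, Function.comp_apply,
      LinearMap.coe_comp, LinearMap.coe_proj, Function.eval, Submodule.subtype_apply,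
      smul_eq_mul] at h1
    have h2 : ∑ t, f ((a ∘ (Fintype.equivFin κ).symm) t) * (c ∘ (Fintype.equivFin κ).symm) t =
        ∑ k, f (a k) * c k :=
      Equiv.sum_comp (Fintype.equivFin κ).symm (fun k => f (a k) * c k)
    rw [h2]
    rw [Finset.sum_congr rfl fun e _ => mul_comm (f e) (x e), ← h1]
    exact Finset.sum_congr rfl fun k _ => mul_comm _ _

theorem value_eq_sum (a : Fin n → Fin n → ℤ) (x : Fin n → Fin n → ℝ) :
    value a x = ∑ e : Fin n × Fin n, (a e.1 e.2 : ℝ) * x e.1 e.2 := by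
  unfold value
  rw [Fintype.sum_prod_type]

theorem mem_walkSpace {i j : Fin n} {u v : List (Fin n × Fin n)} (hu : IsWalk G i j u)
    (hv : IsWalk G i j v) :
    (fun e : Fin n × Fin n => ((cnt u e.1 e.2 - cnt v e.1 e.2 : ℤ) : ℝ)) ∈ walkSpace G := by
  apply Submodule.subset_span
  refine ⟨i, j, u, v, hu, hv, ?_⟩
  funext e
  simp only [cnt]
  push_cast
  rfl

theorem compress_space {r : ℕ} {E : Fin r → Fin n × Fin n} (hE : Function.Injective E)
    {W : Submodule ℝ (Fin n × Fin n → ℝ)}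
    (hy : ∀ x : Fin n × Fin n → ℝ, ∃ y : Fin r → ℝ, ∀ f ∈ W,
        ∑ e, f e * x e = ∑ t, f (E t) * y t) {J : Type} [DecidableEq J]
    (f : J → Fin n → Fin n → ℤ) (o : J) (ho : f o = 0)
    (hs : ∀ j, (fun e : Fin n × Fin n => (f j e.1 e.2 : ℝ)) ∈ W) (w b : ℕ)
    (hw0 : 0 < w) (hb : 8 * w ≤ 2 ^ b) (hw : ∀ p q, norm2 (fun i j => f p i j - f q i j) ≤ w) :
    TS.Compress (fun j x => value (f j) x) o (6 * (b * r + 1)) ∧
      (∀ [Fintype J], TS.N (fun j x => value (f j) x) Set.univ ≤
        (2 * Fintype.card J ^ 2 + 1) ^ r) ∧ (r = 0 → ∀ j x, value (f j) x = 0) := by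
  classical
  choose φ hφ using hy
  let g : J → Fin r → ℤ := fun j t => f j (E t).1 (E t).2
  have hval : (fun (j : J) (x : Fin n → Fin n → ℝ) => TS.V g j (φ fun e => x e.1 e.2)) =
      fun j x => value (f j) x := by
    funext j x
    rw [value_eq_sum]
    exact (hφ (fun e => x e.1 e.2) _ (hs j)).symm
  have hg : ∀ p q, ∑ j, (g p j - g q j).natAbs ≤ w := by
    intro p q
    refine le_trans ?_ (hw p q)
    have h1 : norm2 (fun i j => f p i j - f q i j) =
        ∑ e : Fin n × Fin n, (f p e.1 e.2 - f q e.1 e.2).natAbs := by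
      unfold norm2
      rw [Fintype.sum_prod_type]
    rw [h1]
    calc ∑ j, (g p j - g q j).natAbs
        = ∑ e ∈ Finset.univ.map ⟨E, hE⟩, (f p e.1 e.2 - f q e.1 e.2).natAbs := by
          rw [Finset.sum_map]
          rfl
      _ ≤ ∑ e : Fin n × Fin n, (f p e.1 e.2 - f q e.1 e.2).natAbs :=
          Finset.sum_le_sum_of_subset (Finset.subset_univ _)
  have hgo : g o = 0 := by
    funext t
    simp only [g, ho]
    rfl
  refine ⟨?_, ?_, ?_⟩
  · have h := compress_comp (TS.compress_forms g o hgo w b hw0 hb hg)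
      (fun x : Fin n → Fin n → ℝ => φ fun e => x e.1 e.2)
    rwa [hval] at h
  · intro _
    have h := N_comp (TS.V g) (fun x : Fin n → Fin n → ℝ => φ fun e => x e.1 e.2)
    rw [hval] at h
    exact h.trans (TS.N_univ_le g)
  · intro hr j x
    have h : TS.V g j (φ fun e => x e.1 e.2) = value (f j) x := congrFun (congrFun hval j) x
    rw [← h]
    unfold TS.V TS.value
    subst hr
    simp

/-- the model can find the signs of the forms of a family in the space of walks -/
def HasSigns {Al : (Fin n → Fin n → ℤ) → Prop} (M : Model n Al) (G : Fin n → Fin n → Prop)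
    (c : ℕ → ℕ → ℕ) : Prop :=
  ∀ (J : Type) [Fintype J] [DecidableEq J] (f : J → Fin n → Fin n → ℤ) (o : J) (w b Q : ℕ),
    f o = 0 → (∀ j, (fun e : Fin n × Fin n => (f j e.1 e.2 : ℝ)) ∈ walkSpace G) → 0 < w →
    8 * w ≤ 2 ^ b →
    (∀ p q, norm2 (fun i j => f p i j - f q i j) ≤ w) → Fintype.card J ≤ 2 ^ Q →
    (∀ p q, Al (fun i j => f p i j - f q i j)) →
    M.Can (c b Q) fun x (r : J → SignType) => ∀ j, r j = SignType.sign (value (f j) x)

theorem tree_signs (Al : (Fin n → Fin n → ℤ) → Prop) :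
    HasSigns (treeModel n Al) G fun b Q => dim G * (8 * Q + 8 + 36 * (b + 1) * (6 * Q + 1)) := by
  intro J _ _ f o w b Q ho hs hw0 hb hw hQ hAl
  obtain ⟨m, E, hm, hE, hy⟩ := coords (walkSpace G)
  obtain ⟨hcomp, hN, hzero⟩ := compress_space hE hy f o ho hs w b hw0 hb hw
  rcases Nat.eq_zero_or_pos m with hm0 | hm1
  · refine ⟨Tree.leaf fun _ => 0, Nat.zero_le _, fun c hc => absurd hc (Set.notMem_empty _), ?_⟩
    intro x j
    simp only [Tree.run]
    rw [hzero hm0 j x, sign_zero]
  have hsolv := TS.Solv_main hcomp (by omega) _ Set.univ le_rfl ⟨fun _ _ => 0, trivial⟩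
  obtain ⟨t, hd, hts, ht⟩ := tree_of_solv _ hsolv
  refine ⟨t, le_trans ?_ (Nat.mul_le_mul_right _ hm), ?_, fun x => ht x trivial⟩
  swap
  · intro a ha
    obtain ⟨p, q, rfl⟩ := hts a ha
    exact hAl p q
  have hlog1 : Real.logb 2 (TS.N (fun j x => value (f j) x) Set.univ) ≤ m * (2 * Q + 2) := by
    have h1 : TS.N (fun j x => value (f j) x) Set.univ ≤ (2 ^ (2 * Q + 2)) ^ m := by
      refine hN.trans (Nat.pow_le_pow_left ?_ m)
      have h2 : Fintype.card J ^ 2 ≤ (2 ^ Q) ^ 2 := Nat.pow_le_pow_left hQ 2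
      have h3 : 2 ^ (2 * Q + 2) = 4 * (2 ^ Q) ^ 2 := by
        rw [← pow_mul, show (4 : ℕ) = 2 ^ 2 by norm_num, ← pow_add]
        congr 1
        ring
      have h4 : 1 ≤ (2 ^ Q) ^ 2 := Nat.one_le_iff_ne_zero.2 (by positivity)
      rw [h3]
      omega
    calc Real.logb 2 (TS.N (fun j x => value (f j) x) Set.univ)
        ≤ Real.logb 2 (((2 : ℝ) ^ (2 * Q + 2)) ^ m) := by
          apply Real.logb_le_logb_of_le (by norm_num)
          · exact_mod_cast TS.N_pos (v := fun j x => value (f j) x) (X := Set.univ)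
              ⟨fun _ _ => 0, trivial⟩
          · exact_mod_cast h1
      _ = m * (2 * Q + 2) := by
          rw [Real.logb_pow, Real.logb_pow, Real.logb_self_eq_one (by norm_num)]
          push_cast
          ring
  have hlog2 : Real.logb (8 / 7) 2 ≤ 6 := by
    rw [Real.logb_le_iff_le_rpow (by norm_num) (by norm_num)]
    norm_num
  have hrho : TS.rho (TS.Open (fun j x => value (f j) x) Set.univ).card ≤ 6 * Q + 1 := by
    have h1 : (TS.Open (fun j x => value (f j) x) Set.univ).card ≤ 2 ^ Q := by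
      refine le_trans ?_ hQ
      rw [← Finset.card_univ]
      exact Finset.card_le_card (Finset.subset_univ _)
    refine (TS.rho_mono h1).trans ?_
    unfold TS.rho
    rw [if_neg (by positivity)]
    push_cast
    rw [Real.logb_pow]
    have h2 : (Q : ℝ) * Real.logb (8 / 7) 2 ≤ Q * 6 :=
      mul_le_mul_of_nonneg_left hlog2 (by positivity)
    linarith
  have hD : ((6 * (b * m + 1) : ℕ) : ℝ) ≤ 6 * (b + 1) * m := by
    have h1 : 6 * (b * m + 1) ≤ 6 * (b + 1) * m := by nlinarith
    exact_mod_cast h1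
  have hmul : ((6 * (b * m + 1) : ℕ) : ℝ) *
      TS.rho (TS.Open (fun j x => value (f j) x) Set.univ).card ≤
      6 * (b + 1) * m * (6 * Q + 1) :=
    mul_le_mul hD hrho (TS.rho_nonneg _) (by positivity)
  have hfin : (t.depth : ℝ) ≤ ((m * (8 * Q + 8 + 36 * (b + 1) * (6 * Q + 1)) : ℕ) : ℝ) := by
    refine hd.trans ?_
    push_cast at hmul hlog1 ⊢
    nlinarith [hmul, hlog1]
  exact_mod_cast hfin

theorem cert_signs (Al : (Fin n → Fin n → ℤ) → Prop) (x : Fin n → Fin n → ℝ) :
    HasSigns (certModel Al x) G fun b _ => 6 * (b + 1) * dim G := by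
  intro J _ _ f o w b Q ho hs hw0 hb hw hQ hAl
  obtain ⟨m, E, hm, hE, hy⟩ := coords (walkSpace G)
  obtain ⟨hcomp, -, hzero⟩ := compress_space hE hy f o ho hs w b hw0 hb hw
  rcases Nat.eq_zero_or_pos m with hm0 | hm1
  · refine ⟨∅, fun _ => 0, Nat.zero_le _, fun c hc => absurd hc (Finset.notMem_empty _), ?_⟩
    intro y _ j
    rw [hzero hm0 j y, sign_zero]
  obtain ⟨T, -, hTc, hT⟩ := hcomp x Finset.univ
  obtain ⟨K, hK, hKT, hKy⟩ :=
    TS.neighbours (fun (j : J) (x : Fin n → Fin n → ℝ) => value (f j) x) x (insert o T)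
  refine ⟨K.image fun q => fun i j => f q.1 i j - f q.2 i j,
    fun j => SignType.sign (value (f j) x), ?_, ?_, ?_⟩
  · refine Finset.card_image_le.trans ?_
    rw [if_neg (Finset.insert_ne_empty _ _)] at hK
    have h1 := Finset.card_insert_le o T
    have h2 : 6 * (b * m + 1) ≤ 6 * (b + 1) * m := by nlinarith
    have h3 : 6 * (b + 1) * m ≤ 6 * (b + 1) * dim G := Nat.mul_le_mul_left _ hm
    show K.card ≤ 6 * (b + 1) * dim G
    omega
  · intro a ha
    obtain ⟨q, -, rfl⟩ := Finset.mem_image.1 ha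
    exact hAl q.1 q.2
  · intro y hy j
    have h1 : y ∈ TS.Know (fun (j : J) (x : Fin n → Fin n → ℝ) => value (f j) x)
        (insert o T) x := by
      apply hKy
      intro q hq
      have := hy _ (Finset.mem_image_of_mem _ hq)
      rw [value_sub, value_sub] at this
      exact this
    exact (hT j (Finset.mem_univ _) y h1).symm

end Pool.Agent.H81.AP
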