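import Pool.Agent.H81.AP.Space

/-!
# Repeated squaring with few different differences of walks
-/

set_option autoImplicit false

open Finset Set

namespace Pool.Agent.H81.AP

open Pool.Agent.H81

variable {n : ℕ} {G : Fin n → Fin n → Prop}

/-- matrices of nonempty walks with at most `h` arcs -/
def HMat (G : Fin n → Fin n → Prop) (h : ℕ) : Type :=
  {M : Mat n // ∀ i j l, M i j = some l → IsWalk G i j l ∧ l ≠ [] ∧ l.length ≤ h}

open Classical in
/-- the comparisons of two existing candidates for the same entry -/
noncomputable def FC (A B C : Finset (Fin n)) (M P Q : Mat n) : Idx A B C → Fin n → Fin n → ℤ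
  | none => 0
  | some q =>
      if opt M P Q q.1 q.2.1 (q.2.2.1.map (↑)) ≠ none ∧ opt M P Q q.1 q.2.1 (q.2.2.2.map (↑)) ≠ none
      then F A B C M P Q (some q) else 0

/-- the selected candidates are right if the signs of the comparisons of existing candidates are -/
theorem sel_spec' (A B C : Finset (Fin n)) (M P Q : Mat n) (r : Idx A B C → SignType)
    (x : Fin n → Fin n → ℝ) (hr : ∀ j, r j = SignType.sign (value (FC A B C M P Q j) x))
    {a c : Fin n} (ha : a ∈ A) (hc : c ∈ C) :
    ∀ o : Option B, val x (sel A B C M P Q r a c) ≤ val x (opt M P Q a c (o.map (↑))) := by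
  classical
  have hF : ∀ o o' : Option B, opt M P Q a c (o.map (↑)) ≠ none →
      opt M P Q a c (o'.map (↑)) ≠ none → r (some (⟨a, ha⟩, ⟨c, hc⟩, o, o')) = SignType.sign
      (value (oform M P Q a c (o.map (↑))) x - value (oform M P Q a c (o'.map (↑))) x) := by
    intro o o' h1 h2
    rw [hr]
    simp only [FC]
    rw [if_pos ⟨h1, h2⟩]
    simp only [F]
    rw [value_sub]
  by_cases hex : ∃ o : Option B, opt M P Q a c (o.map (↑)) ≠ none
  · have h : ∃ (ha : a ∈ A) (hc : c ∈ C) (o : Option B), opt M P Q a c (o.map (↑)) ≠ none ∧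
        ∀ o' : Option B, opt M P Q a c (o'.map (↑)) ≠ none →
          r (some (⟨a, ha⟩, ⟨c, hc⟩, o, o')) ≠ 1 := by
      obtain ⟨o1, ho1⟩ := hex
      obtain ⟨o, ho, hmin⟩ := Finset.exists_min_image
        (Finset.univ.filter fun o : Option B => opt M P Q a c (o.map (↑)) ≠ none)
        (fun o => value (oform M P Q a c (o.map (↑))) x) ⟨o1, by simpa using ho1⟩
      refine ⟨ha, hc, o, (Finset.mem_filter.1 ho).2, ?_⟩
      intro o' ho' h1
      rw [hF o o' (Finset.mem_filter.1 ho).2 ho', sign_eq_one_iff, sub_pos] at h1
      exact absurd (hmin o' (Finset.mem_filter.2 ⟨Finset.mem_univ _, ho'⟩)) (not_le.2 h1)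
    have hsel : sel A B C M P Q r a c =
        opt M P Q a c (h.choose_spec.choose_spec.choose.map (↑)) := by
      unfold sel
      rw [dif_pos h]
    obtain ⟨hv, hmin⟩ := h.choose_spec.choose_spec.choose_spec
    rw [hsel]
    intro o'
    generalize h.choose_spec.choose_spec.choose = o at hv hmin
    obtain ⟨l, hl⟩ := Option.ne_none_iff_exists'.1 hv
    by_cases ho' : opt M P Q a c (o'.map (↑)) = none
    · rw [ho']
      simp [val]
    · obtain ⟨l', hl'⟩ := Option.ne_none_iff_exists'.1 ho'
      have h1 := hmin o' ho'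
      rw [hF o o' hv ho', Ne, sign_eq_one_iff, sub_pos, not_lt, value_oform hl,
        value_oform hl'] at h1
      rw [hl, hl']
      simpa [val] using h1
  · push Not at hex
    intro o
    rw [hex o]
    simp [val]

theorem oform_eq {M P Q : Mat n} {a c : Fin n} {o : Option (Fin n)} {l : List (Fin n × Fin n)}
    (h : opt M P Q a c o = some l) : oform M P Q a c o = cnt l := by
  cases o with
  | none =>
    have h' : M a c = some l := h
    simp only [oform, ocnt, h', Option.elim_some]
  | some b =>
    have h' : app (P a b) (Q b c) = some l := h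
    cases hp : P a b with
    | none =>
      rw [hp] at h'
      simp [app] at h'
    | some l1 =>
      cases hq : Q b c with
      | none =>
        rw [hp, hq] at h'
        simp [app] at h'
      | some l2 =>
        rw [hp, hq] at h'
        simp only [app, Option.some.injEq] at h'
        simp only [oform, hp, hq, ocnt, Option.elim_some]
        rw [← h', cnt_append]

theorem opt_walk {h : ℕ} (D : HMat G h) {a c : Fin n} {o : Option (Fin n)}
    {l : List (Fin n × Fin n)} (hl : opt D.1 D.1 D.1 a c o = some l) :
    IsWalk G a c l ∧ l ≠ [] ∧ l.length ≤ 2 * h := by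
  cases o with
  | none =>
    obtain ⟨h1, h2, h3⟩ := D.2 a c l hl
    exact ⟨h1, h2, by omega⟩
  | some b =>
    have h' : app (D.1 a b) (D.1 b c) = some l := hl
    cases hp : D.1 a b with
    | none =>
      rw [hp] at h'
      simp [app] at h'
    | some l1 =>
      cases hq : D.1 b c with
      | none =>
        rw [hp, hq] at h'
        simp [app] at h'
      | some l2 =>
        rw [hp, hq] at h'
        simp only [app, Option.some.injEq] at h'
        obtain ⟨h1, h2, h3⟩ := D.2 a b l1 hp
        obtain ⟨h4, h5, h6⟩ := D.2 b c l2 hq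
        rw [← h']
        refine ⟨h1.append h4, by simp [h2], ?_⟩
        rw [List.length_append]
        omega

/-- the walks which are selected -/
theorem sel_h {h : ℕ} (D : HMat G h)
    (r : Idx (Finset.univ : Finset (Fin n)) Finset.univ Finset.univ → SignType) :
    ∀ i j l, sel Finset.univ Finset.univ Finset.univ D.1 D.1 D.1 r i j = some l →
      IsWalk G i j l ∧ l ≠ [] ∧ l.length ≤ 2 * h := by
  classical
  intro a c l hl
  unfold sel at hl
  split_ifs at hl with hh
  exact opt_walk D hl

/-- `f` is the difference of two walks with the same ends and at most `h` arcs -/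
def Diff (G : Fin n → Fin n → Prop) (h : ℕ) (f : Fin n → Fin n → ℤ) : Prop :=
  ∃ i j u v, IsWalk G i j u ∧ IsWalk G i j v ∧ u.length ≤ h ∧ v.length ≤ h ∧
    f = fun p q => cnt u p q - cnt v p q

theorem Diff.mem {h : ℕ} {f : Fin n → Fin n → ℤ} (hf : Diff G h f) :
    (fun e : Fin n × Fin n => (f e.1 e.2 : ℝ)) ∈ walkSpace G := by
  obtain ⟨i, j, u, v, hu, hv, -, -, rfl⟩ := hf
  exact mem_walkSpace hu hv

theorem Diff.norm {h : ℕ} {f : Fin n → Fin n → ℤ} (hf : Diff G h f) : norm2 f ≤ 2 * h := by
  obtain ⟨i, j, u, v, -, -, hu, hv, rfl⟩ := hf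
  refine (norm2_sub _ _).trans ?_
  have h1 := norm2_cnt u
  have h2 := norm2_cnt v
  omega

theorem Diff.pair {h : ℕ} {f g : Fin n → Fin n → ℤ} (hf : Diff G h f) (hg : Diff G h g) :
    PairTest G (fun i j => f i j - g i j) := by
  obtain ⟨i, j, u, v, hu, hv, -, -, rfl⟩ := hf
  obtain ⟨i', j', u', v', hu', hv', -, -, rfl⟩ := hg
  refine ⟨u, v', v, u', ⟨_, _, hu⟩, ⟨_, _, hv'⟩, ⟨_, _, hv⟩, ⟨_, _, hu'⟩, ?_⟩
  funext p q
  ring

theorem diff_zero (hn : 0 < n) (h : ℕ) : Diff G h 0 :=
  ⟨⟨0, hn⟩, ⟨0, hn⟩, [], [], rfl, rfl, by simp, by simp, by funext p q; simp⟩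

theorem FC_diff (hn : 0 < n) {h : ℕ} (D : HMat G h)
    (j : Idx (Finset.univ : Finset (Fin n)) Finset.univ Finset.univ) :
    Diff G (2 * h) (FC Finset.univ Finset.univ Finset.univ D.1 D.1 D.1 j) := by
  classical
  cases j with
  | none => exact diff_zero hn _
  | some q =>
    simp only [FC]
    split_ifs with hq
    · obtain ⟨h1, h2⟩ := hq
      obtain ⟨l, hl⟩ := Option.ne_none_iff_exists'.1 h1
      obtain ⟨l', hl'⟩ := Option.ne_none_iff_exists'.1 h2
      obtain ⟨h3, -, h4⟩ := opt_walk D hl
      obtain ⟨h5, -, h6⟩ := opt_walk D hl'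
      refine ⟨q.1, q.2.1, l, l', h3, h5, h4, h6, ?_⟩
      simp only [F]
      rw [oform_eq hl, oform_eq hl']
    · exact diff_zero hn _

theorem square (M : Model n (PairTest G)) {c : ℕ → ℕ → ℕ} (hM : HasSigns M G c) (hn : 0 < n)
    (κ : ℕ) (hκ : n ≤ 2 ^ κ) (k : ℕ) (D : HMat G (2 ^ k)) :
    M.Can (c (k + 6) (4 * κ + 3)) fun x (R : HMat G (2 ^ (k + 1))) =>
      (∀ i j, val x (R.1 i j) ≤ val x (D.1 i j)) ∧
        ∀ i j b, val x (R.1 i j) ≤ val x (D.1 i b) + val x (D.1 b j) := by
  classical
  have hFs := FC_diff hn D
  have h := hM (Idx (Finset.univ : Finset (Fin n)) Finset.univ Finset.univ)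
    (FC Finset.univ Finset.univ Finset.univ D.1 D.1 D.1) none (8 * 2 ^ k) (k + 6) (4 * κ + 3)
    rfl (fun j => (hFs j).mem) (by positivity) (by rw [pow_add]; omega)
    (fun p q => by
      refine (norm2_sub _ _).trans ?_
      have h1 := (hFs p).norm
      have h2 := (hFs q).norm
      omega)
    (idx_le (by simpa using hκ) (by simpa using hκ) (by simpa using hκ))
    (fun p q => (hFs p).pair (hFs q))
  refine M.map h (fun r => (⟨sel Finset.univ Finset.univ Finset.univ D.1 D.1 D.1 r, by
    intro i j l hl
    have := sel_h D r i j l hl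
    rw [pow_succ, mul_comm]
    exact this⟩ : HMat G (2 ^ (k + 1)))) ?_
  intro x r hr
  refine ⟨?_, ?_⟩
  · intro i j
    exact sel_spec' _ _ _ _ _ _ r x hr (Finset.mem_univ i) (Finset.mem_univ j) none
  · intro i j b
    have h1 := sel_spec' _ _ _ _ _ _ r x hr (Finset.mem_univ i) (Finset.mem_univ j)
      (some ⟨b, Finset.mem_univ b⟩)
    simp only [Option.map_some, opt] at h1
    rwa [val_app] at h1

/-- the total cost -/
def S (c : ℕ → ℕ → ℕ) (κ : ℕ) : ℕ → ℕ
  | 0 => 0
  | k + 1 => S c κ k + c (k + 6) (4 * κ + 3)

theorem squares (M : Model n (PairTest G)) {c : ℕ → ℕ → ℕ} (hM : HasSigns M G c) (hn : 0 < n)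
    (κ : ℕ) (hκ : n ≤ 2 ^ κ) (k : ℕ) :
    M.Can (S c κ k) fun x (R : HMat G (2 ^ k)) =>
      ∀ i j l, IsWalk G i j l → l ≠ [] → l.length ≤ 2 ^ k →
        val x (R.1 i j) ≤ ((len x l : ℝ) : WithTop ℝ) := by
  classical
  induction k with
  | zero =>
    refine M.pure (⟨fun i j => if G i j then some [(i, j)] else none, ?_⟩ : HMat G (2 ^ 0)) ?_
    · intro i j l hl
      simp only at hl
      split_ifs at hl with h
      rw [Option.some.injEq] at hl
      rw [← hl]
      exact ⟨⟨rfl, h, rfl⟩, by simp, by simp⟩
    · intro x i j l hw hne hlen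
      match l, hw, hne, hlen with
      | [], _, hne, _ => exact absurd rfl hne
      | [e], hw, _, _ =>
        obtain ⟨h1, h2, h3⟩ := hw
        have h4 : e.2 = j := h3
        subst h1
        subst h4
        simp [h2, val]
      | e :: e' :: l, _, _, hlen =>
        simp at hlen
  | succ k ih =>
    simp only [S]
    refine M.bind ih fun D => ?_
    refine M.weaken (square M hM hn κ hκ k D) ?_
    intro x R hR hD i j l hw hne hlen
    by_cases hk : l.length ≤ 2 ^ k
    · exact (hR.1 i j).trans (hD i j l hw hne hk)
    · rw [not_le] at hk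
      have hpos : 0 < 2 ^ k := by positivity
      rw [← List.take_append_drop (2 ^ k) l] at hw
      obtain ⟨v, h1, h2⟩ := hw.split
      have e1 : (l.take (2 ^ k)).length = 2 ^ k := by
        rw [List.length_take]
        omega
      have e2 : (l.drop (2 ^ k)).length = l.length - 2 ^ k := List.length_drop
      have hne1 : l.take (2 ^ k) ≠ [] := by
        intro h
        rw [h] at e1
        simp at e1
        omega
      have hne2 : l.drop (2 ^ k) ≠ [] := by
        intro h
        rw [h] at e2
        simp at e2
        omega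
      have h3 := hD i v _ h1 hne1 (by omega)
      have h4 := hD v j _ h2 hne2 (by rw [e2]; rw [pow_succ] at hlen; omega)
      refine (hR.2 i j v).trans ((add_le_add h3 h4).trans (le_of_eq ?_))
      rw [← WithTop.coe_add, ← len_append, List.take_append_drop]

/-- shortest walks by repeated squaring -/
theorem Model.sparse (M : Model n (PairTest G)) {c : ℕ → ℕ → ℕ} (hM : HasSigns M G c)
    (hn : 0 < n) (κ : ℕ) (hκ : n ≤ 2 ^ κ) :
    M.Can (S c κ κ + c (κ + 6) (4 * κ + 3)) (Answer G) := by
  classical
  refine M.bind (squares M hM hn κ hκ κ) fun R => ?_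
  let f : Option (Fin n) → Fin n → Fin n → ℤ := fun o => o.elim 0 fun i => ocnt (R.1 i i)
  have hf : ∀ o, Diff G (2 ^ κ) (f o) := by
    intro o
    cases o with
    | none => exact diff_zero hn _
    | some i =>
      cases hR : R.1 i i with
      | none =>
        have : f (some i) = 0 := by simp only [f, Option.elim_some, hR, ocnt, Option.elim_none]
        rw [this]
        exact diff_zero hn _
      | some l =>
        obtain ⟨h1, h2, h3⟩ := R.2 i i l hR
        refine ⟨i, i, l, [], h1, rfl, h3, by simp, ?_⟩
        simp only [f, Option.elim_some, hR, ocnt, cnt_nil]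
        funext p q
        simp
  have h := hM (Option (Fin n)) f none (4 * 2 ^ κ) (κ + 6) (4 * κ + 3) rfl
    (fun o => (hf o).mem) (by positivity) (by rw [pow_add]; omega)
    (fun p q => by
      refine (norm2_sub _ _).trans ?_
      have h1 := (hf p).norm
      have h2 := (hf q).norm
      omega)
    (by
      rw [Fintype.card_option, Fintype.card_fin]
      have h1 : 1 ≤ 2 ^ κ := Nat.one_le_two_pow
      have h2 : 2 ^ (κ + 1) ≤ 2 ^ (4 * κ + 3) := Nat.pow_le_pow_right (by norm_num) (by omega)
      rw [pow_succ] at h2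
      omega)
    (fun p q => (hf p).pair (hf q))
  refine M.map h (fun r => if ∃ i, r (some i) = -1 then none else
    some fun i j => if i = j then some [] else R.1 i j) ?_
  intro x r hr hR
  have hcyc : ∀ i, r (some i) = -1 ↔ ∃ l, R.1 i i = some l ∧ len x l < 0 := by
    intro i
    rw [hr]
    cases hRi : R.1 i i with
    | none =>
      simp only [f, Option.elim_some, hRi, ocnt, Option.elim_none]
      constructor
      · intro h0
        have : value (0 : Fin n → Fin n → ℤ) x = 0 := by
          unfold value
          simp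
        rw [this, sign_zero] at h0
        exact absurd h0 (by decide)
      · rintro ⟨l, hl, -⟩
        exact absurd hl (by simp)
    | some l =>
      simp only [f, Option.elim_some, hRi, ocnt]
      rw [value_cnt, sign_eq_neg_one_iff]
      constructor
      · intro h0
        exact ⟨l, rfl, h0⟩
      · rintro ⟨l', hl', h0⟩
        rw [Option.some.injEq] at hl'
        rwa [hl']
  by_cases hex : ∃ i, r (some i) = -1
  · rw [if_pos hex]
    obtain ⟨i, hi⟩ := hex
    obtain ⟨l, hl, h0⟩ := (hcyc i).1 hi
    exact ⟨i, l, (R.2 i i l hl).1, h0⟩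
  · rw [if_neg hex]
    push Not at hex
    have hneg : ∀ i l, IsWalk G i i l → l.length ≤ n → 0 ≤ len x l := by
      intro i l hl hlen
      by_cases hne : l = []
      · rw [hne, len_nil]
      · have h1 := hR i i l hl hne (hlen.trans hκ)
        by_contra hcon
        rw [not_le] at hcon
        apply hex i
        rw [hcyc]
        cases hRi : R.1 i i with
        | none =>
          rw [hRi] at h1
          simp [val] at h1
        | some l' =>
          rw [hRi] at h1
          refine ⟨l', rfl, ?_⟩
          have h2 : len x l' ≤ len x l := by simpa [val] using h1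
          linarith
    have hred := fun l => reduce x hneg l.length l le_rfl
    show Solves G x _
    intro i j
    by_cases hij : i = j
    · subst hij
      simp only [if_true]
      refine ⟨?_, ?_⟩
      · intro l hl
        rw [Option.some.injEq] at hl
        subst hl
        refine ⟨rfl, ?_⟩
        intro l' hl'
        obtain ⟨l'', h1, h2, h3⟩ := hred l' i i hl'
        rw [len_nil]
        exact (hneg i l'' h1 h2).trans h3
      · intro h0
        cases h0
    · simp only [if_neg hij]
      have hlow : ∀ l', IsWalk G i j l' → val x (R.1 i j) ≤ ((len x l' : ℝ) : WithTop ℝ) := by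
        intro l' hl'
        obtain ⟨l'', h1, h2, h3⟩ := hred l' i j hl'
        have hne : l'' ≠ [] := by
          rintro rfl
          exact hij h1
        refine (hR i j l'' h1 hne (h2.trans hκ)).trans ?_
        exact_mod_cast h3
      refine ⟨?_, ?_⟩
      · intro l hl
        refine ⟨(R.2 i j l hl).1, ?_⟩
        intro l' hl'
        have := hlow l' hl'
        rw [hl] at this
        simpa [val] using this
      · intro h0 l' hl'
        have := hlow l' hl'
        rw [h0] at this
        simp [val] at this

end Pool.Agent.H81.AP
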