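import Pool.Agent.H81.AP.Square
import Pool.Agent.H81.AP.Final

/-!
# Certificates by the conditions of Bellman
-/

set_option autoImplicit false

open Finset Set

namespace Pool.Agent.H81.AP

open Pool.Agent.H81 Module

variable {n : ℕ} {G : Fin n → Fin n → Prop}

/-- short shortest walks -/
theorem short {x : Fin n → Fin n → ℝ} {R : Mat n} (hR : Solves G x R) :
    ∃ R' : Mat n, (∀ i, R' i i = some []) ∧ ∀ i j,
      (∀ l, R' i j = some l → IsWalk G i j l ∧ l.length ≤ n ∧
        ∀ l', IsWalk G i j l' → len x l ≤ len x l') ∧
      (R' i j = none → ∀ l, ¬ IsWalk G i j l) := by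
  classical
  have hcl : ∀ i l, IsWalk G i i l → 0 ≤ len x l := by
    intro i l hl
    cases hRi : R i i with
    | none => exact absurd (show IsWalk G i i [] from rfl) ((hR i i).2 hRi [])
    | some l0 =>
      obtain ⟨h1, h2⟩ := (hR i i).1 l0 hRi
      have h3 := h2 (l0 ++ l0) (h1.append h1)
      rw [len_append] at h3
      linarith [h2 l hl]
  have hneg : ∀ i l, IsWalk G i i l → l.length ≤ n → 0 ≤ len x l := fun i l h _ => hcl i l h
  have h : ∀ i j, ∃ o : Option (List (Fin n × Fin n)), (i = j → o = some []) ∧
      (∀ l, o = some l → IsWalk G i j l ∧ l.length ≤ n ∧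
        ∀ l', IsWalk G i j l' → len x l ≤ len x l') ∧ (o = none → ∀ l, ¬ IsWalk G i j l) := by
    intro i j
    by_cases hij : i = j
    · subst hij
      refine ⟨some [], fun _ => rfl, ?_, fun h => by cases h⟩
      intro l hl
      rw [Option.some.injEq] at hl
      subst hl
      exact ⟨rfl, by simp, fun l' hl' => by rw [len_nil]; exact hcl i l' hl'⟩
    · cases hRij : R i j with
      | none =>
        refine ⟨none, fun h => absurd h hij, ?_, fun _ => (hR i j).2 hRij⟩
        intro l hl
        cases hl
      | some l0 =>
        obtain ⟨h1, h2⟩ := (hR i j).1 l0 hRij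
        obtain ⟨l', h3, h4, h5⟩ := reduce x hneg l0.length l0 le_rfl i j h1
        refine ⟨some l', fun h => absurd h hij, ?_, fun h => by cases h⟩
        intro l hl
        rw [Option.some.injEq] at hl
        subst hl
        exact ⟨h3, h4, fun l'' hl'' => h5.trans (h2 l'' hl'')⟩
  choose R' h1 h2 using h
  exact ⟨R', fun i => h1 i i rfl, h2⟩

/-- the conditions of Bellman as differences of walks -/
theorem bellman (hn : 0 < n) (R : Mat n) (hR : ∀ i j l, R i j = some l → IsWalk G i j l ∧
    l.length ≤ n) : ∃ f : Option (Fin n × Fin n × Fin n) → Fin n → Fin n → ℤ, f none = 0 ∧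
      (∀ j, Diff G (n + 1) (f j)) ∧ ∀ i k j u v, G k j → R i k = some u → R i j = some v →
        ∀ x, value (f (some (i, k, j))) x = len x u + x k j - len x v := by
  classical
  have h : ∀ o : Option (Fin n × Fin n × Fin n), ∃ g : Fin n → Fin n → ℤ, (o = none → g = 0) ∧
      Diff G (n + 1) g ∧ ∀ i k j u v, o = some (i, k, j) → G k j → R i k = some u →
        R i j = some v → ∀ x, value g x = len x u + x k j - len x v := by
    intro o
    by_cases ho : ∃ i k j u v, o = some (i, k, j) ∧ G k j ∧ R i k = some u ∧ R i j = some v
    · obtain ⟨i, k, j, u, v, h1, h2, h3, h4⟩ := ho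
      obtain ⟨h5, h6⟩ := hR _ _ _ h3
      obtain ⟨h7, h8⟩ := hR _ _ _ h4
      refine ⟨fun p q => cnt (u ++ [(k, j)]) p q - cnt v p q, ?_, ?_, ?_⟩
      · intro h0
        rw [h0] at h1
        cases h1
      · refine ⟨i, j, u ++ [(k, j)], v, h5.append ⟨rfl, h2, rfl⟩, h7, ?_, by omega, rfl⟩
        rw [List.length_append, List.length_singleton]
        omega
      · intro i' k' j' u' v' h1' _ h3' h4' x
        rw [h1, Option.some.injEq, Prod.mk.injEq, Prod.mk.injEq] at h1'
        obtain ⟨rfl, rfl, rfl⟩ := h1'
        rw [h3, Option.some.injEq] at h3'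
        rw [h4, Option.some.injEq] at h4'
        subst h3'
        subst h4'
        rw [value_sub, value_cnt, value_cnt, len_append]
        simp [len]
    · refine ⟨0, fun _ => rfl, diff_zero hn _, ?_⟩
      intro i k j u v h1 h2 h3 h4
      exact absurd ⟨i, k, j, u, v, h1, h2, h3, h4⟩ ho
  choose f h1 h2 h3 using h
  exact ⟨f, h1 none rfl, h2, fun i k j u v => h3 _ i k j u v rfl⟩

/-- certificates by the dimension -/
theorem cert_dim (hn : 2 ≤ n) (G : Fin n → Fin n → Prop) (x : Fin n → Fin n → ℝ) :
    ∃ (L : Finset (Fin n → Fin n → ℤ)) (o : Option (Mat n)),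
      (L.card : ℝ) ≤ 54 * dim G * Real.logb 2 n ∧
      (∀ a ∈ L, PairTest G a) ∧ ∀ y, Agree L x y → Answer G y o := by
  classical
  obtain ⟨L0, o, -, -, ho⟩ := apsp_cert (n := n) (by omega) G x
  have hox := ho x fun _ _ => rfl
  clear ho
  set κ := Nat.clog 2 n with hκ
  have hκ1 : 1 ≤ κ := Nat.clog_pos (by norm_num) hn
  have hκn : n ≤ 2 ^ κ := Nat.le_pow_clog (by norm_num) n
  have hlog := one_le_log hn
  have hlog2 := clog_le_log hn
  rw [← hκ] at hlog2
  have hnum : ∀ m : ℕ, m ≤ 6 * (κ + 7) * dim G → (m : ℝ) ≤ 54 * dim G * Real.logb 2 n := by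
    intro m hm
    have h1 : (m : ℝ) ≤ 6 * (κ + 7) * dim G := by exact_mod_cast hm
    have hpos : (0 : ℝ) ≤ dim G := Nat.cast_nonneg _
    have h2 : 6 * ((κ : ℝ) + 7) ≤ 54 * Real.logb 2 n := by linarith
    calc (m : ℝ) ≤ 6 * (κ + 7) * dim G := h1
      _ ≤ 54 * Real.logb 2 n * dim G := mul_le_mul_of_nonneg_right h2 hpos
      _ = 54 * dim G * Real.logb 2 n := by ring
  cases o with
  | none =>
    obtain ⟨i, l, h1, h2⟩ := hox
    refine ⟨{cnt l}, none, ?_, ?_, ?_⟩
    · apply hnum
      rw [Finset.card_singleton]
      have h3 : 1 ≤ dim G := by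
        unfold dim
        rw [Submodule.one_le_finrank_iff]
        intro hbot
        have h4 := mem_walkSpace h1 (show IsWalk G i i [] from rfl)
        rw [hbot, Submodule.mem_bot] at h4
        have h5 : len x l = 0 := by
          rw [← value_cnt, value_eq_sum]
          apply Finset.sum_eq_zero
          intro e _
          have h6 := congrFun h4 e
          simp only [cnt_nil, Pi.zero_apply, sub_zero] at h6
          rw [h6, zero_mul]
        linarith
      nlinarith
    · intro a ha
      rw [Finset.mem_singleton] at ha
      rw [ha]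
      exact cnt_pairTest h1
    · intro y hy
      have h3 := hy _ (Finset.mem_singleton_self _)
      rw [value_cnt, value_cnt, sign_neg h2, sign_eq_neg_one_iff] at h3
      exact ⟨i, l, h1, h3⟩
  | some R0 =>
    obtain ⟨R, hRi, hR⟩ := short hox
    obtain ⟨f, hf0, hfd, hf⟩ := bellman (G := G) (by omega) R fun i j l hl =>
      ⟨((hR i j).1 l hl).1, ((hR i j).1 l hl).2.1⟩
    obtain ⟨L, r, hL, hs, hr⟩ := cert_signs (G := G) (PairTest G) x
      (Option (Fin n × Fin n × Fin n)) f none (4 * (n + 1)) (κ + 6)
      (Fintype.card (Option (Fin n × Fin n × Fin n))) hf0 (fun j => (hfd j).mem) (by omega)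
      (by rw [pow_add]; omega)
      (fun p q => by
        refine (norm2_sub _ _).trans ?_
        have h1 := (hfd p).norm
        have h2 := (hfd q).norm
        omega) Nat.lt_two_pow_self.le (fun p q => (hfd p).pair (hfd q))
    refine ⟨L, some R, ?_, hs, ?_⟩
    · exact hnum _ hL
    · intro y hy
      show Solves G y R
      have hrx := hr x fun _ _ => rfl
      have hry := hr y hy
      have hstep : ∀ i k j u v, G k j → R i k = some u → R i j = some v →
          len y v ≤ len y u + y k j := by
        intro i k j u v h1 h2 h3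
        have h4 := hf i k j u v h1 h2 h3
        have h5 : SignType.sign (value (f (some (i, k, j))) y) =
            SignType.sign (value (f (some (i, k, j))) x) := by
          rw [← hry, ← hrx]
        have h6 : 0 ≤ value (f (some (i, k, j))) x := by
          rw [h4]
          have h7 := ((hR i k).1 u h2).1
          have h8 := ((hR i j).1 v h3).2.2 (u ++ [(k, j)]) (h7.append ⟨rfl, h1, rfl⟩)
          rw [len_append] at h8
          simp only [len, List.map_cons, List.map_nil, List.sum_cons, List.sum_nil,
            add_zero] at h8 ⊢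
          linarith
        have h7 : 0 ≤ value (f (some (i, k, j))) y := by
          by_contra hcon
          rw [not_le] at hcon
          rw [sign_neg hcon] at h5
          have := sign_eq_neg_one_iff.1 h5.symm
          linarith
        rw [h4] at h7
        linarith
      have hall : ∀ l : List (Fin n × Fin n), ∀ i j, IsWalk G i j l →
          ∃ v, R i j = some v ∧ len y v ≤ len y l := by
        intro l
        induction l using List.reverseRecOn with
        | nil =>
          intro i j hl
          have h1 : i = j := hl
          subst h1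
          exact ⟨[], hRi i, le_rfl⟩
        | append_singleton l e ih =>
          intro i j hl
          obtain ⟨k, h1, h2⟩ := hl.split
          obtain ⟨h3, h4, h5⟩ := h2
          have h6 : e.2 = j := h5
          obtain ⟨u, h7, h8⟩ := ih i k h1
          cases hij : R i j with
          | none => exact absurd hl ((hR i j).2 hij _)
          | some v =>
            refine ⟨v, rfl, ?_⟩
            rw [h3, h6] at h4
            have h9 := hstep i k j u v h4 h7 hij
            rw [len_append]
            simp only [len, List.map_cons, List.map_nil, List.sum_cons, List.sum_nil,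
              add_zero, h3, h6] at h8 h9 ⊢
            linarith
      intro i j
      refine ⟨?_, (hR i j).2⟩
      intro l hl
      refine ⟨((hR i j).1 l hl).1, ?_⟩
      intro l' hl'
      obtain ⟨v, h1, h2⟩ := hall l' i j hl'
      rw [hl, Option.some.injEq] at h1
      rw [h1]
      exact h2

end Pool.Agent.H81.AP
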